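import Pool.Agent.K1H35.SH.Stm

namespace Pool.Agent.K1H35.SH

open Finset

theorem mem_nb {n : ℕ} (G : SimpleGraph (Fin n)) (v x : Fin n) : x ∈ nb G v ↔ G.Adj v x := by
  classical
  unfold nb
  simp

theorem mem_reg {n d : ℕ} (G : SimpleGraph (Fin n)) :
    G ∈ reg n d ↔ ∀ v, (nb G v).card = d := by
  classical
  unfold reg
  simp

/-- every vertex has exactly `d` neighbours -/
def Regular {V : Type} (d : ℕ) (G : SimpleGraph V) : Prop := ∀ v, (G.neighborSet v).ncard = d

theorem card_nb {n : ℕ} (G : SimpleGraph (Fin n)) (v : Fin n) :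
    (G.neighborSet v).ncard = (nb G v).card := by
  rw [← Set.ncard_coe_finset]
  congr 1
  ext x
  simp [mem_nb]

theorem reg_eq (n d : ℕ) : {G : SimpleGraph (Fin n) | Regular d G} = (reg n d : Set _) := by
  ext G
  simp [mem_reg, Regular, card_nb]

theorem cnt_eq (n d : ℕ) (P : SimpleGraph (Fin n) → Prop) :
    {G : SimpleGraph (Fin n) | Regular d G ∧ P G}.ncard = cnt n d P := by
  classical
  have h : {G : SimpleGraph (Fin n) | Regular d G ∧ P G} = ((reg n d).filter P : Set _) := by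
    ext G
    simp only [Set.mem_setOf_eq, coe_filter, mem_reg, Regular, card_nb]
  rw [h, Set.ncard_coe_finset]
  unfold cnt
  congr

theorem cnt_compl (n d : ℕ) (P : SimpleGraph (Fin n) → Prop) :
    cnt n d P + cnt n d (fun G => ¬ P G) = (reg n d).card := by
  classical
  have h := Finset.card_filter_add_card_filter_not (s := reg n d) P
  rw [← h]
  unfold cnt
  congr

/-- The final statement in terms of uniform random regular graphs. -/
theorem final (hM : S_MAIN) (hE : S_EX) :
    ∃ C : ℝ, 0 < C ∧ ∀ n d : ℕ, 0 < n → Even (n * d) →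
      C * (n : ℝ) ^ 2 * Real.log n ≤ (d : ℝ) ^ 3 → 2 * d ≤ n →
      0 < {G : SimpleGraph (Fin n) | Regular d G}.ncard ∧
      1 - 1 / (n : ℝ) ≤ ({G : SimpleGraph (Fin n) | Regular d G ∧ Recon G}.ncard : ℝ) /
        ({G : SimpleGraph (Fin n) | Regular d G}.ncard : ℝ) := by
  obtain ⟨C, hC, h⟩ := hM
  refine ⟨C, hC, ?_⟩
  intro n d hn hev h1 h2
  have hR : {G : SimpleGraph (Fin n) | Regular d G}.ncard = (reg n d).card := by
    rw [reg_eq, Set.ncard_coe_finset]
  have hpos : 0 < (reg n d).card := Finset.card_pos.mpr (hE n d h2 hev)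
  rw [hR, cnt_eq]
  refine ⟨hpos, ?_⟩
  have h3 := h n d h1 h2
  have h4 := cnt_compl n d Recon
  have hn' : (0 : ℝ) < n := by exact_mod_cast hn
  have hp' : (0 : ℝ) < (reg n d).card := by exact_mod_cast hpos
  rw [le_div_iff₀ hp']
  have h5 : (n : ℝ) * (cnt n d (fun G => ¬ Recon G) : ℝ) ≤ (reg n d).card := by exact_mod_cast h3
  have h6 : (cnt n d Recon : ℝ) + (cnt n d (fun G => ¬ Recon G) : ℝ) = (reg n d).card := by
    exact_mod_cast h4
  have h7 : (cnt n d (fun G => ¬ Recon G) : ℝ) ≤ (1 / (n : ℝ)) * (reg n d).card := by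
    rw [one_div, ← div_eq_inv_mul, le_div_iff₀ hn']
    linarith
  nlinarith

end Pool.Agent.K1H35.SH
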