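import Pool.Agent.K1H35.SH.Stm

namespace Pool.Agent.K1H35.SH

open Finset

theorem cnt_le (n d : ℕ) (P : SimpleGraph (Fin n) → Prop) : cnt n d P ≤ (reg n d).card := by
  classical
  unfold cnt
  refine le_trans (le_of_eq ?_) (card_filter_le (reg n d) P)
  congr

theorem t_MAIN (hCNT : S_CNT) (hNUM : S_NUM) : S_MAIN := by
  obtain ⟨C, hC, hN⟩ := hNUM
  refine ⟨C, hC, ?_⟩
  intro n d h1 h2
  rcases Nat.lt_or_ge n 2 with hn | hn
  · have h3 : cnt n d (fun G => ¬ Recon G) ≤ (reg n d).card := cnt_le _ _ _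
    have h4 : n * cnt n d (fun G => ¬ Recon G) ≤ 1 * cnt n d (fun G => ¬ Recon G) :=
      Nat.mul_le_mul_right _ (by omega)
    omega
  · obtain ⟨a, q, J, K, k1, k2, k3, k4, k5, k6, k7, k8, k9⟩ := hN n d hn h1 h2
    have h := hCNT n d a q J K h2 k1 k2 k3 k4 k5 k6
    set X := cnt n d (fun G => ¬ Recon G) with hX
    set R := (reg n d).card with hR
    set g := d / 16 with hg
    have e1 : 2 ^ (J + K) * (3 * n ^ (2 * a + 9)) ≤ 2 ^ (g + J + K) := by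
      calc 2 ^ (J + K) * (3 * n ^ (2 * a + 9)) ≤ 2 ^ (J + K) * 2 ^ g := Nat.mul_le_mul_left _ k7
        _ = 2 ^ (g + J + K) := by rw [← pow_add]; congr 1; omega
    have e2 : 2 ^ (g + J) * (3 * n ^ 5) ≤ 2 ^ (g + J + K) := by
      calc 2 ^ (g + J) * (3 * n ^ 5) ≤ 2 ^ (g + J) * 2 ^ K := Nat.mul_le_mul_left _ k8
        _ = 2 ^ (g + J + K) := by rw [← pow_add]
    have e3 : 2 ^ (g + K) * (3 * n ^ (2 * a + 1)) ≤ 2 ^ (g + J + K) := by
      calc 2 ^ (g + K) * (3 * n ^ (2 * a + 1)) ≤ 2 ^ (g + K) * 2 ^ J := Nat.mul_le_mul_left _ k9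
        _ = 2 ^ (g + J + K) := by rw [← pow_add]; congr 1; omega
    have h5 : (3 * n) * (X * 2 ^ (g + J + K)) ≤ (3 * n) * ((2 ^ (J + K) * n ^ (2 * a + 8) +
        2 ^ (g + J) * n ^ 4 + 2 ^ (g + K) * n ^ (2 * a)) * R) := Nat.mul_le_mul_left _ h
    have h6 : (3 * n) * ((2 ^ (J + K) * n ^ (2 * a + 8) +
        2 ^ (g + J) * n ^ 4 + 2 ^ (g + K) * n ^ (2 * a)) * R) =
        (2 ^ (J + K) * (3 * n ^ (2 * a + 9)) + 2 ^ (g + J) * (3 * n ^ 5) +
          2 ^ (g + K) * (3 * n ^ (2 * a + 1))) * R := by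
      have q1 : n ^ (2 * a + 9) = n ^ (2 * a + 8) * n := pow_succ _ _
      have q2 : n ^ (2 * a + 1) = n ^ (2 * a) * n := pow_succ _ _
      have q3 : n ^ 5 = n ^ 4 * n := pow_succ _ _
      rw [q1, q2, q3]
      ring
    have h7 : (2 ^ (J + K) * (3 * n ^ (2 * a + 9)) + 2 ^ (g + J) * (3 * n ^ 5) +
          2 ^ (g + K) * (3 * n ^ (2 * a + 1))) * R ≤ (3 * 2 ^ (g + J + K)) * R := by
      apply Nat.mul_le_mul_right
      omega
    have h8 : (3 * 2 ^ (g + J + K)) * (n * X) ≤ (3 * 2 ^ (g + J + K)) * R := by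
      calc (3 * 2 ^ (g + J + K)) * (n * X) = (3 * n) * (X * 2 ^ (g + J + K)) := by ring
        _ ≤ _ := h5
        _ = _ := h6
        _ ≤ _ := h7
    exact Nat.le_of_mul_le_mul_left h8 (by positivity)

end Pool.Agent.K1H35.SH
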