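import Pool.Agent.K1H35.SH.Fin
import Pool.Agent.K1H35.SH.Main
import Pool.Agent.K1H33.SH.Sw
import Pool.Agent.K1H33.SH.Dc
import Pool.Agent.K1H99.SH.RT
import Pool.Agent.K1H38.SH.OneBad
import Pool.Agent.K1H67.SH.Two
import Pool.Agent.K1H31.SH.Tha
import Pool.Agent.K1H74.SH.Thb
import Pool.Agent.K1H87.SH.Rec
import Pool.Agent.K1H28.SH.Uni
import Pool.Agent.K1H68.SH.Cnt
import Pool.Agent.K1H52.SH.Num
import Pool.Agent.K1H1.SH.EX

namespace Pool.Agent.K1H35.SH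

theorem r_SW : S_SW := Pool.Agent.K1H33.SH.t_SW
theorem r_DC : S_DC := Pool.Agent.K1H33.SH.t_DC
theorem r_CH : S_CH := Pool.Agent.K1H33.SH.t_CH
theorem r_R : S_R := Pool.Agent.K1H99.SH.t_R
theorem r_ONE : S_ONE := t_ONE r_SW r_DC r_R
theorem r_BAD : S_BAD := t_BAD r_ONE
theorem r_TWO : S_TWO := Pool.Agent.K1H67.SH.t_TWO r_SW r_DC
theorem r_THA : S_THA := Pool.Agent.K1H31.SH.t_THA r_SW r_DC
theorem r_THB : S_THB := Pool.Agent.K1H74.SH.t_THB r_THA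
theorem r_REC : S_REC := Pool.Agent.K1H87.SH.t_REC
theorem r_UNI : S_UNI := Pool.Agent.K1H28.SH.t_UNI
theorem r_CNT : S_CNT := t_CNT r_CH r_BAD r_TWO r_THB r_REC r_UNI
theorem r_NUM : S_NUM := Pool.Agent.K1H52.SH.t_NUM
theorem r_MAIN : S_MAIN := t_MAIN r_CNT r_NUM
theorem r_EX : S_EX := Pool.Agent.K1H1.SH.t_EX

end Pool.Agent.K1H35.SH
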