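import Pool.Agent.K1H35.SH.Stm2
import Pool.Agent.K1H35.SH.Fin

namespace Pool.Agent.K1H35.SH

open Finset Filter

theorem t_FULL (hM : S_MAIN) (hS : S_SPARSE) : S_FULL := by
  obtain ⟨C1, hC1, h1⟩ := hM
  refine ⟨2 ^ 207 + 2 ^ 122 * C1 ^ 2, by positivity, ?_⟩
  intro n d hn hd h2
  have hn1 : (2 : ℝ) ^ 207 ≤ n := by
    have : 0 ≤ 2 ^ 122 * C1 ^ 2 := by positivity
    linarith
  have hn2 : (2 : ℝ) ^ 122 * C1 ^ 2 ≤ n := by
    have : (0 : ℝ) ≤ 2 ^ 207 := by positivity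
    linarith
  have hn0 : (0 : ℝ) < n := lt_of_lt_of_le (by positivity) hn1
  have hn2' : 2 ≤ n := by
    have : (2 : ℝ) ≤ n := le_trans (by norm_num) hn1
    exact_mod_cast this
  have hlog : Real.log 2 ≤ Real.log n := Real.log_le_log (by norm_num) (by exact_mod_cast hn2')
  have hlog2 : (0.6931471803 : ℝ) < Real.log 2 := Real.log_two_gt_d9
  rcases Nat.lt_or_ge n (2 ^ 20 * d) with hc | hc
  · -- dense
    apply h1 n d _ h2
    have hd1 : (n : ℝ) ≤ 2 ^ 20 * d := by exact_mod_cast hc.le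
    have hs0 : 0 < Real.sqrt n := Real.sqrt_pos.2 hn0
    have hs : Real.sqrt n * Real.sqrt n = n := Real.mul_self_sqrt hn0.le
    have hl : Real.log n ≤ 2 * Real.sqrt n := by
      have q1 : Real.log n = 2 * Real.log (Real.sqrt n) := by
        rw [Real.log_sqrt hn0.le]; ring
      have q2 := Real.log_le_sub_one_of_pos hs0
      rw [q1]; linarith
    have hs1 : 2 ^ 61 * C1 ≤ Real.sqrt n := by
      apply Real.le_sqrt_of_sq_le
      calc ((2 : ℝ) ^ 61 * C1) ^ 2 = 2 ^ 122 * C1 ^ 2 := by ring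
        _ ≤ (n : ℝ) := hn2
    have hd3 : (n : ℝ) ^ 3 ≤ (2 ^ 20 * d) ^ 3 := pow_le_pow_left₀ hn0.le hd1 3
    have hk : 2 ^ 60 * (C1 * (n : ℝ) ^ 2 * Real.log n) ≤ (n : ℝ) ^ 3 := by
      calc 2 ^ 60 * (C1 * (n : ℝ) ^ 2 * Real.log n)
          ≤ 2 ^ 60 * (C1 * (n : ℝ) ^ 2 * (2 * Real.sqrt n)) := by gcongr
        _ = (2 ^ 61 * C1) * Real.sqrt n * (n : ℝ) ^ 2 := by ring
        _ ≤ Real.sqrt n * Real.sqrt n * (n : ℝ) ^ 2 := by gcongr
        _ = (n : ℝ) ^ 3 := by rw [hs]; ring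
    have hf : (2 : ℝ) ^ 60 * (C1 * (n : ℝ) ^ 2 * Real.log n) ≤ 2 ^ 60 * (d : ℝ) ^ 3 := by
      calc _ ≤ (n : ℝ) ^ 3 := hk
        _ ≤ (2 ^ 20 * d) ^ 3 := hd3
        _ = 2 ^ 60 * (d : ℝ) ^ 3 := by ring
    exact le_of_mul_le_mul_left hf (by positivity)
  · -- sparse
    have hL1 : n ≤ 2 ^ (Nat.log 2 n + 1) := (Nat.lt_pow_succ_log_self (by norm_num) n).le
    have hL2 : 2 ^ (Nat.log 2 n + 1 - 1) ≤ n := by
      rw [Nat.add_sub_cancel]
      exact Nat.pow_log_le_self 2 (by omega)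
    apply hS n d (Nat.log 2 n + 1) hL1 hL2 (by omega) _ hc
    have hL3 : ((Nat.log 2 n + 1 : ℕ) : ℝ) ≤ 3 * Real.log n := by
      have q1 : ((2 : ℝ)) ^ (Nat.log 2 n) ≤ n := by exact_mod_cast Nat.pow_log_le_self 2 (by omega)
      have q2 : (Nat.log 2 n : ℝ) * Real.log 2 ≤ Real.log n := by
        rw [← Real.log_pow]
        exact Real.log_le_log (by positivity) q1
      push_cast
      nlinarith
    have hgoal : (2 : ℝ) ^ 200 * ((Nat.log 2 n : ℝ) + 1) ^ 4 * n ≤ (d : ℝ) ^ 2 := by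
      push_cast at hL3
      have hL4 : ((Nat.log 2 n : ℝ) + 1) ^ 4 ≤ (3 * Real.log n) ^ 4 :=
        pow_le_pow_left₀ (by positivity) hL3 4
      have hlg : 0 ≤ Real.log n := by linarith
      calc (2 : ℝ) ^ 200 * ((Nat.log 2 n : ℝ) + 1) ^ 4 * n
          ≤ 2 ^ 200 * (3 * Real.log n) ^ 4 * n := by gcongr
        _ = (2 ^ 200 * 81) * (n : ℝ) * (Real.log n) ^ 4 := by ring
        _ ≤ (2 ^ 207 + 2 ^ 122 * C1 ^ 2) * (n : ℝ) * (Real.log n) ^ 4 := by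
            have : (2 : ℝ) ^ 200 * 81 ≤ 2 ^ 207 + 2 ^ 122 * C1 ^ 2 := by
              have : (0 : ℝ) ≤ 2 ^ 122 * C1 ^ 2 := by positivity
              nlinarith
            gcongr
        _ ≤ (d : ℝ) ^ 2 := hd
    exact_mod_cast hgoal

/-- The quantitative statement in terms of probabilities. -/
theorem final_quant (hF : S_FULL) (hE : S_EX) :
    ∃ C : ℝ, 0 < C ∧ ∀ n d : ℕ, C ≤ n → Even (n * d) →
      C * (n : ℝ) * (Real.log n) ^ 4 ≤ (d : ℝ) ^ 2 → 2 * d ≤ n →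
      0 < {G : SimpleGraph (Fin n) | Regular d G}.ncard ∧
      1 - 1 / (n : ℝ) ≤ ({G : SimpleGraph (Fin n) | Regular d G ∧ Recon G}.ncard : ℝ) /
        ({G : SimpleGraph (Fin n) | Regular d G}.ncard : ℝ) := by
  obtain ⟨C, hC, h⟩ := hF
  refine ⟨C, hC, ?_⟩
  intro n d hCn hev h1 h2
  have hn' : (0 : ℝ) < n := lt_of_lt_of_le hC hCn
  have hR : {G : SimpleGraph (Fin n) | Regular d G}.ncard = (reg n d).card := by
    rw [reg_eq, Set.ncard_coe_finset]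
  have hpos : 0 < (reg n d).card := Finset.card_pos.mpr (hE n d h2 hev)
  rw [hR, cnt_eq]
  refine ⟨hpos, ?_⟩
  have h3 := h n d hCn h1 h2
  have h4 := cnt_compl n d Recon
  have hp' : (0 : ℝ) < (reg n d).card := by exact_mod_cast hpos
  rw [le_div_iff₀ hp']
  have h5 : (n : ℝ) * (cnt n d (fun G => ¬ Recon G) : ℝ) ≤ (reg n d).card := by exact_mod_cast h3
  have h6 : (cnt n d Recon : ℝ) + (cnt n d (fun G => ¬ Recon G) : ℝ) = (reg n d).card := by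
    exact_mod_cast h4
  have h7 : (cnt n d (fun G => ¬ Recon G) : ℝ) ≤ (1 / (n : ℝ)) * (reg n d).card := by
    rw [one_div, ← div_eq_inv_mul, le_div_iff₀ hn']
    linarith
  nlinarith

/-- The question as posed. -/
theorem final_seq (hQ : ∃ C : ℝ, 0 < C ∧ ∀ n d : ℕ, C ≤ n → Even (n * d) →
      C * (n : ℝ) * (Real.log n) ^ 4 ≤ (d : ℝ) ^ 2 → 2 * d ≤ n →
      0 < {G : SimpleGraph (Fin n) | Regular d G}.ncard ∧
      1 - 1 / (n : ℝ) ≤ ({G : SimpleGraph (Fin n) | Regular d G ∧ Recon G}.ncard : ℝ) /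
        ({G : SimpleGraph (Fin n) | Regular d G}.ncard : ℝ)) :
    ∀ ε : ℝ, 0 < ε → ∀ d : ℕ → ℕ, (∀ n, Even (n * d n)) →
      (∀ᶠ n : ℕ in atTop, (n : ℝ) ^ ((1 : ℝ) / 2 + ε) ≤ d n ∧ (d n : ℝ) ≤ n / 2) →
      Tendsto (fun n : ℕ => ({G : SimpleGraph (Fin n) | Regular (d n) G ∧ Recon G}.ncard : ℝ) /
        ({G : SimpleGraph (Fin n) | Regular (d n) G}.ncard : ℝ)) atTop (nhds 1) := by
  obtain ⟨C, hC, h⟩ := hQ
  intro ε hε d hev hd
  have hlog : ∀ᶠ n : ℕ in atTop, C * (n : ℝ) * (Real.log n) ^ 4 ≤ ((n : ℝ) ^ ((1 : ℝ) / 2 + ε)) ^ 2 := by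
    have h1 : Tendsto (fun x : ℝ => Real.log x ^ 4 / x ^ (2 * ε)) atTop (nhds 0) := by
      have h2 := isLittleO_log_rpow_rpow_atTop (s := 2 * ε) 4 (by positivity)
      have h3 := h2.tendsto_div_nhds_zero
      refine h3.congr (fun x => ?_)
      norm_num
    have h2 : ∀ᶠ x : ℝ in atTop, Real.log x ^ 4 / x ^ (2 * ε) < 1 / C :=
      h1.eventually (gt_mem_nhds (by positivity))
    have h3 : ∀ᶠ x : ℝ in atTop, (1 : ℝ) ≤ x := eventually_ge_atTop 1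
    have h4 := (tendsto_natCast_atTop_atTop (R := ℝ)).eventually (h2.and h3)
    filter_upwards [h4] with n hn
    obtain ⟨q1, q2⟩ := hn
    have hx : (0 : ℝ) < (n : ℝ) := by linarith
    have hp : (0 : ℝ) < (n : ℝ) ^ (2 * ε) := Real.rpow_pos_of_pos hx _
    rw [div_lt_iff₀ hp] at q1
    have q3 : ((n : ℝ) ^ ((1 : ℝ) / 2 + ε)) ^ 2 = (n : ℝ) * (n : ℝ) ^ (2 * ε) := by
      rw [← Real.rpow_natCast, ← Real.rpow_mul hx.le]
      have : ((1 : ℝ) / 2 + ε) * ((2 : ℕ) : ℝ) = 1 + 2 * ε := by push_cast; ring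
      rw [this, Real.rpow_add hx, Real.rpow_one]
    rw [q3]
    calc C * (n : ℝ) * Real.log n ^ 4 = (n : ℝ) * (C * Real.log n ^ 4) := by ring
      _ ≤ (n : ℝ) * (C * (1 / C * (n : ℝ) ^ (2 * ε))) := by gcongr
      _ = (n : ℝ) * (n : ℝ) ^ (2 * ε) := by field_simp
  have hlow : ∀ᶠ n : ℕ in atTop, 1 - 1 / (n : ℝ) ≤
      ({G : SimpleGraph (Fin n) | Regular (d n) G ∧ Recon G}.ncard : ℝ) /
        ({G : SimpleGraph (Fin n) | Regular (d n) G}.ncard : ℝ) := by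
    have hCn : ∀ᶠ n : ℕ in atTop, C ≤ (n : ℝ) :=
      (tendsto_natCast_atTop_atTop (R := ℝ)).eventually (eventually_ge_atTop C)
    filter_upwards [hlog, hd, hCn] with n q1 q2 q3
    refine (h n (d n) q3 (hev n) ?_ ?_).2
    · refine q1.trans ?_
      exact pow_le_pow_left₀ (by positivity) q2.1 2
    · have : (2 * (d n : ℝ)) ≤ n := by linarith [q2.2]
      exact_mod_cast this
  have hup : ∀ n : ℕ, ({G : SimpleGraph (Fin n) | Regular (d n) G ∧ Recon G}.ncard : ℝ) /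
        ({G : SimpleGraph (Fin n) | Regular (d n) G}.ncard : ℝ) ≤ 1 := by
    intro n
    apply div_le_one_of_le₀ _ (by positivity)
    have : {G : SimpleGraph (Fin n) | Regular (d n) G ∧ Recon G}.ncard ≤
        {G : SimpleGraph (Fin n) | Regular (d n) G}.ncard :=
      Set.ncard_le_ncard (fun G hG => hG.1) (Set.toFinite _)
    exact_mod_cast this
  have hlim : Tendsto (fun n : ℕ => 1 - 1 / (n : ℝ)) atTop (nhds 1) := by
    have := (tendsto_one_div_atTop_nhds_zero_nat (𝕜 := ℝ)).const_sub 1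
    simpa using this
  exact tendsto_of_tendsto_of_tendsto_of_le_of_le' hlim tendsto_const_nhds hlow
    (Eventually.of_forall hup)

end Pool.Agent.K1H35.SH
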