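import Pool.Agent.K1H35.SH.Stm2
import Pool.Agent.K1H35.SH.Fin

namespace Pool.Agent.K1H35.SH

open Finset

theorem mem_Sd {n : ℕ} (G : SimpleGraph (Fin n)) (f : Fin n → Fin n → Fin n) (v x : Fin n) :
    x ∈ Sd G f v ↔ G.Adj v x ∧ f v x ≠ x := by
  classical
  unfold Sd
  simp [mem_nb]

theorem mem_Hv {n h : ℕ} (G : SimpleGraph (Fin n)) (f : Fin n → Fin n → Fin n) (v : Fin n) :
    v ∈ Hv h G f ↔ h < 2 * (Sd G f v).card := by
  classical
  unfold Hv
  simp

theorem codeg_ge {n t : ℕ} (G : SimpleGraph (Fin n)) (hn : 3 ≤ n) (hQT : QT t G) (x y : Fin n)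
    (hxy : x ≠ y) : t ≤ codeg G x y := by
  classical
  obtain ⟨w, hw1, hw2⟩ : ∃ w : Fin n, x ≠ w ∧ y ≠ w := by
    by_contra hcon
    push Not at hcon
    have h1 : (univ : Finset (Fin n)) ⊆ {x, y} := by
      intro w _
      simp only [mem_insert, mem_singleton]
      by_cases h : x = w
      · exact Or.inl h.symm
      · exact Or.inr (hcon w h).symm
    have h2 := card_le_card h1
    have h3 : (univ : Finset (Fin n)).card = n := by simp
    have h4 : ({x, y} : Finset (Fin n)).card ≤ 2 := card_le_two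
    omega
  refine (hQT x y w hxy hw1 hw2).trans ?_
  unfold codeg TS
  apply card_le_card
  intro z hz
  rw [mem_sdiff] at hz
  convert hz.1

theorem t_RIG (hCTR : S_CTR) (hHV : S_HV) (hAGG : S_AGG) (hPSI : S_PSI) : S_RIG := by
  classical
  intro n d h L t M B c c2 Dm K μ km b G hnL hL ht hB hd hh hG hQT hM hQD hQG hQP hHe hn
    n1 n2 n3 n4 n5 n6 n7 n8 H f hTw
  have hcd : ∀ x y, x ≠ y → t ≤ codeg G x y ∧ codeg G x y ≤ M :=
    fun x y hxy => ⟨codeg_ge G hn hQT x y hxy, hM x y hxy⟩
  have h1 := hAGG n d L t M B c c2 Dm G H f hnL hL (by omega) hB hG hTw hQG hcd n1 n2 n3 n4 n5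
  have h2 : (t - 2) * ∑ z, ∑ z', bad G f z z' ≤ (t - 2) * b := h1.trans n6
  have h3 : ∑ z, ∑ z', bad G f z z' ≤ b := Nat.le_of_mul_le_mul_left h2 (by omega)
  obtain ⟨π, Δ, p1, p2, p3⟩ := hPSI n d b G H f hd hG hTw h3
  have h4 : Δ.card ≤ K := Nat.le_of_mul_le_mul_left (p1.trans n7) (by omega)
  have h5 := hQP π Δ h4 p2
  -- the total number of defects
  have hS : d * ∑ v, (Sd G f v).card ≤ 9 * b + μ * d ^ 2 := by
    have e1 : ∑ v, (Sd G f v).card =
        (univ.filter (fun p : Fin n × Fin n => G.Adj p.1 p.2 ∧ f p.2 p.1 ≠ p.1)).card := by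
      rw [← card_sigma]
      refine card_bij' (fun s _ => (s.2, s.1)) (fun p _ => ⟨p.2, p.1⟩) ?_ ?_ ?_ ?_
      · intro s hs
        rw [mem_sigma] at hs
        have := (mem_Sd G f s.1 s.2).1 hs.2
        simp only [mem_filter, mem_univ, true_and]
        exact ⟨this.1.symm, this.2⟩
      · intro p hp
        simp only [mem_filter, mem_univ, true_and] at hp
        rw [mem_sigma]
        exact ⟨mem_univ _, (mem_Sd G f p.2 p.1).2 ⟨hp.1.symm, hp.2⟩⟩
      · intro s hs
        rfl
      · intro p hp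
        rfl
    have e2 : (univ.filter (fun p : Fin n × Fin n => G.Adj p.1 p.2 ∧ f p.2 p.1 ≠ p.1)).card ≤
        (univ.filter (fun p : Fin n × Fin n => G.Adj p.1 p.2 ∧ f p.2 p.1 ≠ π p.1)).card +
        (univ.filter (fun p : Fin n × Fin n => G.Adj p.1 p.2 ∧ π p.1 ≠ p.1)).card := by
      refine le_trans (card_le_card ?_) (card_union_le _ _)
      intro p hp
      simp only [mem_filter, mem_univ, true_and, mem_union] at hp ⊢
      by_cases hc : f p.2 p.1 = π p.1
      · right
        exact ⟨hp.1, by rw [← hc]; exact hp.2⟩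
      · left
        exact ⟨hp.1, hc⟩
    have e3 : (univ.filter (fun p : Fin n × Fin n => G.Adj p.1 p.2 ∧ f p.2 p.1 ≠ π p.1)).card =
        ({p : Fin n × Fin n | G.Adj p.1 p.2 ∧ f p.2 p.1 ≠ π p.1} : Set _).ncard := by
      rw [← Set.ncard_coe_finset]
      congr 1
      ext p
      simp
    have e4 : (univ.filter (fun p : Fin n × Fin n => G.Adj p.1 p.2 ∧ π p.1 ≠ p.1)).card ≤
        μ * d := by
      have q1 : (univ.filter (fun p : Fin n × Fin n => G.Adj p.1 p.2 ∧ π p.1 ≠ p.1)).card =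
          ∑ x ∈ univ.filter (fun x : Fin n => π x ≠ x), (nb G x).card := by
        rw [← card_sigma]
        refine card_bij' (fun p _ => ⟨p.1, p.2⟩) (fun s _ => (s.1, s.2)) ?_ ?_ ?_ ?_
        · intro p hp
          simp only [mem_filter, mem_univ, true_and] at hp
          rw [mem_sigma, mem_filter]
          exact ⟨⟨mem_univ _, hp.2⟩, (mem_nb G p.1 p.2).2 hp.1⟩
        · intro s hs
          rw [mem_sigma, mem_filter] at hs
          simp only [mem_filter, mem_univ, true_and]
          exact ⟨(mem_nb G s.1 s.2).1 hs.2, hs.1.2⟩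
        · intro p hp
          rfl
        · intro s hs
          rfl
      rw [q1, sum_congr rfl (fun x _ => (mem_reg G).1 hG x), sum_const, smul_eq_mul]
      apply Nat.mul_le_mul_right
      refine le_trans (le_of_eq ?_) h5
      rw [← Set.ncard_coe_finset]
      congr 1
      ext x
      simp
    calc d * ∑ v, (Sd G f v).card ≤ d * (({p : Fin n × Fin n | G.Adj p.1 p.2 ∧
          f p.2 p.1 ≠ π p.1} : Set _).ncard + μ * d) := by
          apply Nat.mul_le_mul_left
          rw [e1]
          refine e2.trans ?_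
          rw [e3]
          exact Nat.add_le_add_left e4 _
      _ = d * ({p : Fin n × Fin n | G.Adj p.1 p.2 ∧
          f p.2 p.1 ≠ π p.1} : Set _).ncard + μ * d ^ 2 := by ring
      _ ≤ 9 * b + μ * d ^ 2 := Nat.add_le_add_right p3 _
  have hC := hCTR n d h t G H f (by omega) hG hQT hQD hTw
  obtain ⟨v1, v2⟩ := hHV n d h G H f hG hTw hC
  by_cases hk : (Hv h G f).card = 0
  · exact v1 hk
  · exfalso
    refine hHe (Hv h G f).card (by omega) ?_ v2
    -- number of heavy vertices
    have w1 : (Hv h G f).card * h ≤ 2 * ∑ v, (Sd G f v).card := by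
      calc (Hv h G f).card * h = ∑ v ∈ Hv h G f, h := by rw [sum_const, smul_eq_mul]
        _ ≤ ∑ v ∈ Hv h G f, 2 * (Sd G f v).card :=
            sum_le_sum (fun v hv => ((mem_Hv G f v).1 hv).le)
        _ ≤ ∑ v, 2 * (Sd G f v).card := sum_le_univ_sum_of_nonneg (fun _ => Nat.zero_le _)
        _ = 2 * ∑ v, (Sd G f v).card := by rw [mul_sum]
    have w2 : (Hv h G f).card * (h * d) ≤ km * (h * d) := by
      calc (Hv h G f).card * (h * d) = ((Hv h G f).card * h) * d := by ring
        _ ≤ (2 * ∑ v, (Sd G f v).card) * d := Nat.mul_le_mul_right _ w1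
        _ = 2 * (d * ∑ v, (Sd G f v).card) := by ring
        _ ≤ 2 * (9 * b + μ * d ^ 2) := Nat.mul_le_mul_left _ hS
        _ ≤ km * h * d := n8
        _ = km * (h * d) := by ring
    exact Nat.le_of_mul_le_mul_right w2 (Nat.mul_pos (by omega) (by omega))

end Pool.Agent.K1H35.SH
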