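import Pool.Agent.K1H35.SH.All
import Pool.Agent.K1H35.SH.Rig
import Pool.Agent.K1H35.SH.Full
import Pool.Agent.K1H16.SQ.UPC
import Pool.Agent.K1H67.SQ.Eup
import Pool.Agent.K1H99.SQ.QLB
import Pool.Agent.K1H59.SQ.SM
import Pool.Agent.K1H26.SQ.Maj
import Pool.Agent.K1H24.SQ.Lc
import Pool.Agent.K1H83.SQ.Cc
import Pool.Agent.K1H7.SQ.LCC
import Pool.Agent.K1H65.SQ.QGB
import Pool.Agent.K1H38.SQ.Qpb
import Pool.Agent.K1H46.SQ.CTR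
import Pool.Agent.K1H35.SH.HV
import Pool.Agent.K1H77.SQ.BTR
import Pool.Agent.K1H36.SQ.Blk
import Pool.Agent.K1H3.SQ.Agg
import Pool.Agent.K1H85.SQ.Psi
import Pool.Agent.K1H29.SQ.Sparse

namespace Pool.Agent.K1H35.SH

theorem r_UPC : S_UPC := Pool.Agent.K1H16.SQ.t_UPC r_SW r_DC
theorem r_UPB : S_UPB := Pool.Agent.K1H16.SQ.t_UPB r_UPC
theorem r_EUP : S_EUP := Pool.Agent.K1H67.SQ.t_EUP r_SW r_DC
theorem r_QDB : S_QDB := Pool.Agent.K1H67.SQ.t_QDB r_EUP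
theorem r_SM : S_SM := Pool.Agent.K1H59.SQ.t_SM
theorem r_MAJ : S_MAJ := Pool.Agent.K1H26.SQ.t_MAJ
theorem r_LC : S_LC := Pool.Agent.K1H24.SQ.t_LC r_SM r_MAJ
theorem r_CC : S_CC := Pool.Agent.K1H83.SQ.t_CC
theorem r_LCC : S_LCC := Pool.Agent.K1H7.SQ.t_LCC r_LC r_CC
theorem r_QGB : S_QGB := Pool.Agent.K1H65.SQ.QGB.t_QGB r_LCC
theorem r_QPB : S_QPB := Pool.Agent.K1H38.SQ.t_QPB r_LCC
theorem r_CTR : S_CTR := Pool.Agent.K1H46.SQ.t_CTR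
theorem r_HV : S_HV := Pool.Agent.K1H35.SH.HV.t_HV
theorem r_RTW : S_RTW := Pool.Agent.K1H35.SH.HV.t_RTW
theorem r_NI : S_NI := Pool.Agent.K1H77.SQ.t_NI
theorem r_BTR : S_BTR := Pool.Agent.K1H77.SQ.t_BTR r_NI
theorem r_BLK : S_BLK := Pool.Agent.K1H36.SQ.t_BLK
theorem r_AGG : S_AGG := Pool.Agent.K1H3.SQ.t_AGG r_BLK r_BTR
theorem r_PSI : S_PSI := Pool.Agent.K1H85.SQ.t_PSI
theorem r_RIG : S_RIG := t_RIG r_CTR r_HV r_AGG r_PSI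

end Pool.Agent.K1H35.SH
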