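import Pool.Agent.K1H35.SH.All2
import Pool.Agent.K1H89.SQ.Lod
import Pool.Agent.K1H19.SQ.Qe
import Pool.Agent.K1H39.SQ.Qtb

namespace Pool.Agent.K1H35.SH

theorem r_LOD : S_LOD := Pool.Agent.K1H89.SQ.t_LOD
theorem r_QLB : S_QLB := Pool.Agent.K1H99.SQ.t_QLB r_EUP r_LOD
theorem r_QE : S_QE := Pool.Agent.K1H19.SQ.t_QE r_LCC
theorem r_QTB : S_QTB := Pool.Agent.K1H39.SQ.t_QTB r_CH r_BAD r_TWO

theorem r_SPARSE' (hN : S_NUM2) : S_SPARSE :=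
  Pool.Agent.K1H29.SQ.t_SPARSE r_QTB r_UPB r_QDB r_QLB r_QE r_QGB r_QPB r_RIG r_RTW hN

theorem r_FULL' (hN : S_NUM2) : S_FULL := t_FULL r_MAIN (r_SPARSE' hN)

end Pool.Agent.K1H35.SH
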