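import Pool.Agent.K1H35.SH.All

/-!
# MP_0fd30f_pr: reconstruction of dense random regular graphs from their 1-neighbourhoods

**Theorem.** There is a constant `C` such that for all `n ≥ 1` and all `d` with `n d` even,
`C n ^ 2 log n ≤ d ^ 3` and `2 d ≤ n`, the uniformly random `d`-regular graph on `n` vertices is
reconstructable from its 1-neighbourhoods with probability at least `1 - 1 / n`.

In particular Q1 holds for all sequences with `n ^ (2/3 + ε) ≤ d_n ≤ n / 2`.

Proof: three switching arguments show that with high probability (i) no two vertices have more than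
`15 d / 16` common neighbours, (ii) for distinct `u, v, w` at least `a` common neighbours of `u, v` are
not adjacent to `w`, (iii) no two disjoint sets of `a` vertices induce isomorphic subgraphs, where `a` is of
order `(n / d) log n`. So the graphs induced by the common neighbourhoods of the edges are pairwise
non-isomorphic, and these graphs are visible in the 1-neighbourhoods of both ends.
-/

namespace Pool.Agent.K1H35.SH.DenseRegularGraphs

open Pool.Agent.K1H35.SH

theorem result :
    ∃ C : ℝ, 0 < C ∧ ∀ n d : ℕ, 0 < n → Even (n * d) →
      C * (n : ℝ) ^ 2 * Real.log n ≤ (d : ℝ) ^ 3 → 2 * d ≤ n →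
      0 < {G : SimpleGraph (Fin n) | Regular d G}.ncard ∧
      1 - 1 / (n : ℝ) ≤ ({G : SimpleGraph (Fin n) | Regular d G ∧ Recon G}.ncard : ℝ) /
        ({G : SimpleGraph (Fin n) | Regular d G}.ncard : ℝ) :=
  final r_MAIN r_EX

end Pool.Agent.K1H35.SH.DenseRegularGraphs
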