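import Pool.Agent.K1H35.SH.Stm2

namespace Pool.Agent.K1H35.SH.Num2

theorem fl (z : ℝ) (hz : 1 ≤ z) : ∃ m : ℕ, z / 2 ≤ m ∧ (m : ℝ) ≤ z := by
  refine ⟨⌊z⌋₊, ?_, Nat.floor_le (by linarith)⟩
  have h1 : z < ⌊z⌋₊ + 1 := Nat.lt_floor_add_one z
  have h2 : 1 ≤ ⌊z⌋₊ := (Nat.one_le_floor_iff z).2 hz
  have h3 : (1 : ℝ) ≤ ⌊z⌋₊ := by exact_mod_cast h2
  linarith

theorem ce (z : ℝ) (hz : 1 ≤ z) : ∃ m : ℕ, z ≤ m ∧ (m : ℝ) ≤ 2 * z := by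
  refine ⟨⌈z⌉₊, Nat.le_ceil z, ?_⟩
  have h1 : (⌈z⌉₊ : ℝ) < z + 1 := Nat.ceil_lt_add_one (by linarith)
  linarith

section
variable (x y l t t0 M h k0 km B c c2 Dm b K μ : ℝ)

theorem c10 (hx : 2 ^ 20 ≤ x) (hl : 1 ≤ l) (hy : 2 ^ 200 * l ≤ y) (ht : y / 2 ^ 14 ≤ t)
    (hh : h ≤ x * y / 2 ^ 26) : 64 * (x * y) * h + 256 * l * (x ^ 2 * y) ≤ t * (x ^ 2 * y) := by
  have x0 : 0 < x := by linarith
  have y0 : 0 < y := by nlinarith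
  have a1 : 64 * (x * y) * h ≤ 64 * (x * y) * (x * y / 2 ^ 26) := by gcongr
  have a2 : (256 * l) * (x ^ 2 * y) ≤ (y / 2 ^ 192) * (x ^ 2 * y) := by
    apply mul_le_mul_of_nonneg_right _ (by positivity)
    rw [le_div_iff₀ (by positivity)]; linarith
  have a3 : (y / 2 ^ 14) * (x ^ 2 * y) ≤ t * (x ^ 2 * y) := by gcongr
  have a4 : 0 ≤ x ^ 2 * y ^ 2 := by positivity
  linarith

theorem c12 (hx : 2 ^ 20 ≤ x) (y0 : 0 < y) (hk0 : 0 ≤ k0) (hk : k0 ≤ x ^ 2 / 2 ^ 36)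
    (hM0 : 0 ≤ M) (hM : M ≤ 10 * y) (hh : x * y / 2 ^ 27 ≤ h) :
    4 * k0 * M ^ 2 ≤ h * (x * y) := by
  have x0 : 0 < x := by linarith
  have a1 : 4 * k0 * M ^ 2 ≤ 4 * (x ^ 2 / 2 ^ 36) * (10 * y) ^ 2 := by gcongr
  have a2 : (x * y / 2 ^ 27) * (x * y) ≤ h * (x * y) := by gcongr
  have a4 : 0 ≤ x ^ 2 * y ^ 2 := by positivity
  linarith

theorem c13 (hx : 2 ^ 20 ≤ x) (hl : 1 ≤ l) (hy : 2 ^ 200 * l ≤ y) (hh : x * y / 2 ^ 27 ≤ h) :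
    2 ^ 15 * l * (x ^ 2 * y) ≤ h * (x * y) := by
  have x0 : 0 < x := by linarith
  have y0 : 0 < y := by nlinarith
  have a1 : 2 ^ 15 * l * (x ^ 2 * y) ≤ (y / 2 ^ 185) * (x ^ 2 * y) := by
    apply mul_le_mul_of_nonneg_right _ (by positivity)
    rw [le_div_iff₀ (by positivity)]; linarith
  have a2 : (x * y / 2 ^ 27) * (x * y) ≤ h * (x * y) := by gcongr
  have a4 : 0 ≤ x ^ 2 * y ^ 2 := by positivity
  linarith

theorem c14 (x0 : 0 < x) (y0 : 0 < y) (l0 : 0 < l) (hkm : km * l ≤ x ^ 2 * y / 2 ^ 80)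
    (hk : x ^ 2 / 2 ^ 37 ≤ k0) (hh : x * y / 2 ^ 27 ≤ h) :
    2 ^ 15 * l * (x ^ 2 * y) * km ≤ k0 * h * (x * y) := by
  have a1 : (km * l) * (2 ^ 15 * (x ^ 2 * y)) ≤ (x ^ 2 * y / 2 ^ 80) * (2 ^ 15 * (x ^ 2 * y)) := by
    gcongr
  have hk0 : 0 ≤ k0 := le_trans (by positivity) hk
  have a2 : (x ^ 2 / 2 ^ 37) * (x * y / 2 ^ 27) * (x * y) ≤ k0 * h * (x * y) := by gcongr
  have a4 : 0 ≤ x ^ 4 * y ^ 2 := by positivity
  linarith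

theorem c15 (hx : 2 ^ 20 ≤ x) (hl : 1 ≤ l) (hy : 2 ^ 200 * l ≤ y) (hc2 : c2 ≤ 2 ^ 22 * l * x ^ 2)
    (hD : 2 ^ 28 * l ^ 2 * x ^ 4 * y ≤ Dm) :
    8 * l * (x ^ 2 * y) * (x ^ 2 * y + 2 * (2 * c2) * (x * y) + 8) ≤ Dm * (x * y) := by
  have x0 : 0 < x := by linarith
  have l0 : 0 < l := by linarith
  have y0 : 0 < y := by nlinarith
  have y1 : 8 ≤ y := by linarith
  have x1 : 1 ≤ x := by linarith
  have b1 : x ^ 2 * y ≤ l * x ^ 3 * y := by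
    calc x ^ 2 * y = 1 * (x ^ 2 * 1) * y := by ring
      _ ≤ l * (x ^ 2 * x) * y := by gcongr
      _ = l * x ^ 3 * y := by ring
  have b2 : (8 : ℝ) ≤ l * x ^ 3 * y := by
    calc (8 : ℝ) = 1 * 1 ^ 3 * 8 := by norm_num
      _ ≤ l * x ^ 3 * y := by gcongr
  have b3 : 2 * (2 * c2) * (x * y) ≤ 2 * (2 * (2 ^ 22 * l * x ^ 2)) * (x * y) := by gcongr
  have b4 : x ^ 2 * y + 2 * (2 * c2) * (x * y) + 8 ≤ 2 ^ 25 * (l * x ^ 3 * y) := by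
    have : 0 ≤ l * x ^ 3 * y := by positivity
    linarith
  calc 8 * l * (x ^ 2 * y) * (x ^ 2 * y + 2 * (2 * c2) * (x * y) + 8)
      ≤ 8 * l * (x ^ 2 * y) * (2 ^ 25 * (l * x ^ 3 * y)) := by gcongr
    _ = (2 ^ 28 * l ^ 2 * x ^ 4 * y) * (x * y) := by ring
    _ ≤ Dm * (x * y) := by gcongr

theorem c16 (hx : 2 ^ 20 ≤ x) (hl : 1 ≤ l) (hy : 2 ^ 200 * l ≤ y)
    (hK : K ≤ 2 ^ 71 * l ^ 2 * x ^ 3 * y) (hμ : 2 ^ 78 * l ^ 3 * x ^ 2 ≤ μ) :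
    32 * l * (2 * (x ^ 2 * y) + 2 * K + 8) ≤ μ * (x * y) := by
  have x0 : 0 < x := by linarith
  have l0 : 0 < l := by linarith
  have y0 : 0 < y := by nlinarith
  have y1 : 8 ≤ y := by linarith
  have x1 : 1 ≤ x := by linarith
  have l2 : 1 ≤ l ^ 2 := one_le_pow₀ hl
  have b1 : x ^ 2 * y ≤ l ^ 2 * x ^ 3 * y := by
    calc x ^ 2 * y = 1 * (x ^ 2 * 1) * y := by ring
      _ ≤ l ^ 2 * (x ^ 2 * x) * y := by gcongr
      _ = l ^ 2 * x ^ 3 * y := by ring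
  have b2 : (8 : ℝ) ≤ l ^ 2 * x ^ 3 * y := by
    calc (8 : ℝ) = 1 * 1 ^ 3 * 8 := by norm_num
      _ ≤ l ^ 2 * x ^ 3 * y := by gcongr
  have b4 : 2 * (x ^ 2 * y) + 2 * K + 8 ≤ 2 ^ 73 * (l ^ 2 * x ^ 3 * y) := by
    have : 0 ≤ l ^ 2 * x ^ 3 * y := by positivity
    linarith
  calc 32 * l * (2 * (x ^ 2 * y) + 2 * K + 8) ≤ 32 * l * (2 ^ 73 * (l ^ 2 * x ^ 3 * y)) := by gcongr
    _ = (2 ^ 78 * l ^ 3 * x ^ 2) * (x * y) := by ring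
    _ ≤ μ * (x * y) := by gcongr

theorem c18 (y0 : 0 < y) (l0 : 0 < l) (hM : M ≤ 10 * y) (hB : y / 2 ^ 18 ≤ B * l) :
    6 * M ≤ (2 ^ 25 * l) * B := by
  have a1 : (y / 2 ^ 18) * 2 ^ 25 ≤ (B * l) * 2 ^ 25 := by gcongr
  linarith

theorem c20 (x0 : 0 < x) (y0 : 0 < y) (hB0 : 0 ≤ B) (hB : y / 2 ^ 18 ≤ B * l)
    (hc2 : 2 ^ 21 * l * x ^ 2 ≤ c2) : 6 * (x ^ 2 * y) ≤ c2 * B := by
  have a1 : (y / 2 ^ 18) * (2 ^ 21 * x ^ 2) ≤ (B * l) * (2 ^ 21 * x ^ 2) := by gcongr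
  have a2 : (2 ^ 21 * l * x ^ 2) * B ≤ c2 * B := by gcongr
  have a4 : 0 ≤ x ^ 2 * y := by positivity
  linarith

theorem c22 (x0 : 0 < x) (l0 : 0 < l) (y0 : 0 < y) (hB0 : 0 ≤ B)
    (hB : B * l ≤ y / 2 ^ 17) (hD0 : 0 ≤ Dm) (hD : Dm ≤ 2 ^ 29 * l ^ 2 * x ^ 4 * y)
    (ht : y / 2 ^ 15 ≤ t - 2) :
    16 * B ^ 2 * (2 ^ 25 * l) ^ 2 * Dm ≤ (t - 2) * (2 ^ 64 * l ^ 2 * (x ^ 2 * y) ^ 2) := by
  calc 16 * B ^ 2 * (2 ^ 25 * l) ^ 2 * Dm = 2 ^ 54 * (B * l) ^ 2 * Dm := by ring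
    _ ≤ 2 ^ 54 * (y / 2 ^ 17) ^ 2 * (2 ^ 29 * l ^ 2 * x ^ 4 * y) := by gcongr
    _ = (y / 2 ^ 15) * (2 ^ 64 * l ^ 2 * (x ^ 2 * y) ^ 2) := by ring
    _ ≤ (t - 2) * (2 ^ 64 * l ^ 2 * (x ^ 2 * y) ^ 2) := by gcongr

theorem c23 (x0 : 0 < x) (y0 : 0 < y) (l0 : 0 < l) (hK : 2 ^ 70 * l ^ 2 * x ^ 3 * y ≤ K) :
    36 * (2 ^ 64 * l ^ 2 * (x ^ 2 * y) ^ 2) ≤ (x * y) * K := by
  have a1 : (x * y) * (2 ^ 70 * l ^ 2 * x ^ 3 * y) ≤ (x * y) * K := by gcongr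
  have a4 : 0 ≤ l ^ 2 * x ^ 4 * y ^ 2 := by positivity
  linarith

theorem c24 (x0 : 0 < x) (hl : 1 ≤ l) (y0 : 0 < y) (hy : 2 ^ 200 * l ^ 4 ≤ y)
    (hμ : μ ≤ 2 ^ 79 * l ^ 3 * x ^ 2) (hkm : x ^ 2 * y / 2 ^ 81 ≤ km * l)
    (hkm0 : 0 ≤ km) (hh : x * y / 2 ^ 27 ≤ h) :
    2 * (9 * (2 ^ 64 * l ^ 2 * (x ^ 2 * y) ^ 2) + μ * (x * y) ^ 2) ≤ km * h * (x * y) := by
  have l0 : 0 < l := by linarith
  have h0 : 0 ≤ h := le_trans (by positivity) hh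
  have a0 : l ^ 2 * (x ^ 2 * y) ^ 2 ≤ l ^ 3 * (x ^ 2 * y) ^ 2 := by
    apply mul_le_mul_of_nonneg_right _ (by positivity)
    calc l ^ 2 = l ^ 2 * 1 := by ring
      _ ≤ l ^ 2 * l := by gcongr
      _ = l ^ 3 := by ring
  have a1 : μ * (x * y) ^ 2 ≤ (2 ^ 79 * l ^ 3 * x ^ 2) * (x * y) ^ 2 := by gcongr
  have a2 : 2 * (9 * (2 ^ 64 * l ^ 2 * (x ^ 2 * y) ^ 2) + μ * (x * y) ^ 2) ≤
      2 ^ 81 * (l ^ 3 * (x ^ 2 * y) ^ 2) := by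
    have : 0 ≤ l ^ 3 * (x ^ 2 * y) ^ 2 := by positivity
    have e : (2 ^ 79 * l ^ 3 * x ^ 2) * (x * y) ^ 2 = 2 ^ 79 * (l ^ 3 * (x ^ 2 * y) ^ 2) := by ring
    rw [e] at a1
    linarith
  have a3 : l * (2 ^ 81 * (l ^ 3 * (x ^ 2 * y) ^ 2)) ≤ l * (km * h * (x * y)) := by
    calc l * (2 ^ 81 * (l ^ 3 * (x ^ 2 * y) ^ 2))
        = (2 ^ 200 * l ^ 4) * (x ^ 2 * y) ^ 2 / 2 ^ 119 := by ring
      _ ≤ y * (x ^ 2 * y) ^ 2 / 2 ^ 119 := by gcongr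
      _ ≤ y * (x ^ 2 * y) ^ 2 / 2 ^ 108 := by
          gcongr <;> norm_num
      _ = (x ^ 2 * y / 2 ^ 81) * (x * y / 2 ^ 27) * (x * y) := by ring
      _ ≤ (km * l) * h * (x * y) := by gcongr
      _ = l * (km * h * (x * y)) := by ring
  exact le_trans a2 (le_of_mul_le_mul_left a3 l0)

end

theorem t_NUM2 : S_NUM2 := by
  intro n d L hnL hLn hL h1 h2
  have hd : 0 < d := by
    rcases Nat.eq_zero_or_pos d with h | h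
    · subst h
      have : 0 < n := lt_of_lt_of_le (by positivity) hLn
      have h3 : 0 < 2 ^ 200 * L ^ 4 * n := by positivity
      simp at h1
      omega
    · exact h
  have hn : 0 < n := lt_of_lt_of_le (by positivity) hLn
  have d0 : (0 : ℝ) < d := by exact_mod_cast hd
  have n0 : (0 : ℝ) < n := by exact_mod_cast hn
  obtain ⟨x, hxe⟩ : ∃ x : ℝ, x = n / d := ⟨_, rfl⟩
  obtain ⟨y, hye⟩ : ∃ y : ℝ, y = (d : ℝ) ^ 2 / n := ⟨_, rfl⟩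
  obtain ⟨l, hle⟩ : ∃ l : ℝ, l = L := ⟨_, rfl⟩
  have en : (n : ℝ) = x ^ 2 * y := by rw [hxe, hye]; field_simp
  have ed : (d : ℝ) = x * y := by rw [hxe, hye]; field_simp
  have hx : 2 ^ 20 ≤ x := by
    rw [hxe, le_div_iff₀ d0]; exact_mod_cast h2
  have hl : 1 ≤ l := by rw [hle]; exact_mod_cast hL
  have hy4 : 2 ^ 200 * l ^ 4 ≤ y := by
    rw [hye, le_div_iff₀ n0, hle]; exact_mod_cast h1
  have x0 : 0 < x := by linarith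
  have l0 : 0 < l := by linarith
  have hll : l ≤ l ^ 4 := by
    calc l = l * 1 := by ring
      _ ≤ l * l ^ 3 := by
          apply mul_le_mul_of_nonneg_left (one_le_pow₀ hl) l0.le
      _ = l ^ 4 := by ring
  have hy : 2 ^ 200 * l ≤ y := le_trans (by gcongr) hy4
  have hyb : 2 ^ 200 ≤ y := by linarith
  have y0 : 0 < y := by linarith
  have xy : 2 ^ 200 ≤ x * y := by
    calc (2 : ℝ) ^ 200 = 1 * 2 ^ 200 := by ring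
      _ ≤ x * y := by
          apply mul_le_mul _ hyb (by positivity) x0.le
          linarith
  have hx2 : 2 ^ 40 ≤ x ^ 2 := by
    calc (2 : ℝ) ^ 40 = (2 ^ 20) ^ 2 := by norm_num
      _ ≤ x ^ 2 := by gcongr
  obtain ⟨t, ht1, ht2⟩ := fl (y / 2 ^ 13) (by rw [le_div_iff₀ (by positivity)]; linarith)
  obtain ⟨t0, ha1, ha2⟩ : ∃ t0 : ℕ, 8 * y ≤ t0 ∧ (t0 : ℝ) ≤ 9 * y := by
    refine ⟨⌈8 * y⌉₊, Nat.le_ceil _, ?_⟩
    have := Nat.ceil_lt_add_one (a := 8 * y) (by linarith)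
    linarith
  obtain ⟨h, hh1, hh2⟩ := fl (x * y / 2 ^ 26) (by rw [le_div_iff₀ (by positivity)]; linarith)
  obtain ⟨k0, hk1, hk2⟩ := fl (x ^ 2 / 2 ^ 36) (by rw [le_div_iff₀ (by positivity)]; linarith)
  obtain ⟨km, hm1, hm2⟩ := fl (x ^ 2 * y / (2 ^ 80 * l)) (by
    rw [le_div_iff₀ (by positivity)]
    calc 1 * (2 ^ 80 * l) ≤ 1 * (2 ^ 200 * l) := by gcongr <;> norm_num
      _ ≤ x ^ 2 * y := by
          apply mul_le_mul _ hy (by positivity) (by positivity)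
          linarith)
  obtain ⟨B, hB1, hB2⟩ := fl (y / (2 ^ 17 * l)) (by
    rw [le_div_iff₀ (by positivity)]
    calc 1 * (2 ^ 17 * l) ≤ 1 * (2 ^ 200 * l) := by gcongr <;> norm_num
      _ ≤ y := by linarith)
  obtain ⟨c2, hc1, hc2⟩ := ce (2 ^ 21 * l * x ^ 2) (by
    calc (1 : ℝ) ≤ 2 ^ 21 * 1 * 2 ^ 40 := by norm_num
      _ ≤ 2 ^ 21 * l * x ^ 2 := by gcongr)
  obtain ⟨Dm, hD1, hD2⟩ := ce (2 ^ 28 * l ^ 2 * x ^ 4 * y) (by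
    calc (1 : ℝ) ≤ 2 ^ 28 * 1 ^ 2 * (2 ^ 20) ^ 4 * 2 ^ 200 := by norm_num
      _ ≤ 2 ^ 28 * l ^ 2 * x ^ 4 * y := by gcongr)
  obtain ⟨K, hK1, hK2⟩ := ce (2 ^ 70 * l ^ 2 * x ^ 3 * y) (by
    calc (1 : ℝ) ≤ 2 ^ 70 * 1 ^ 2 * (2 ^ 20) ^ 3 * 2 ^ 200 := by norm_num
      _ ≤ 2 ^ 70 * l ^ 2 * x ^ 3 * y := by gcongr)
  obtain ⟨μ, hμ1, hμ2⟩ := ce (2 ^ 78 * l ^ 3 * x ^ 2) (by
    calc (1 : ℝ) ≤ 2 ^ 78 * 1 ^ 3 * (2 ^ 20) ^ 2 := by norm_num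
      _ ≤ 2 ^ 78 * l ^ 3 * x ^ 2 := by gcongr)
  -- normal forms
  have ht1' : y / 2 ^ 14 ≤ t := by linarith
  have hh1' : x * y / 2 ^ 27 ≤ h := by linarith
  have hk1' : x ^ 2 / 2 ^ 37 ≤ k0 := by linarith
  have hm1' : x ^ 2 * y / 2 ^ 81 ≤ km * l := by
    have := mul_le_mul_of_nonneg_right hm1 l0.le
    calc x ^ 2 * y / 2 ^ 81 = x ^ 2 * y / (2 ^ 80 * l) / 2 * l := by field_simp
      _ ≤ km * l := this
  have hm2' : km * l ≤ x ^ 2 * y / 2 ^ 80 := by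
    have := mul_le_mul_of_nonneg_right hm2 l0.le
    calc km * l ≤ x ^ 2 * y / (2 ^ 80 * l) * l := this
      _ = x ^ 2 * y / 2 ^ 80 := by field_simp
  have hB1' : y / 2 ^ 18 ≤ B * l := by
    have := mul_le_mul_of_nonneg_right hB1 l0.le
    calc y / 2 ^ 18 = y / (2 ^ 17 * l) / 2 * l := by field_simp
      _ ≤ B * l := this
  have hB2' : B * l ≤ y / 2 ^ 17 := by
    have := mul_le_mul_of_nonneg_right hB2 l0.le
    calc B * l ≤ y / (2 ^ 17 * l) * l := this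
      _ = y / 2 ^ 17 := by field_simp
  have hc2' : (c2 : ℝ) ≤ 2 ^ 22 * l * x ^ 2 := by linarith
  have hD2' : (Dm : ℝ) ≤ 2 ^ 29 * l ^ 2 * x ^ 4 * y := by linarith
  have hK2' : (K : ℝ) ≤ 2 ^ 71 * l ^ 2 * x ^ 3 * y := by linarith
  have hμ2' : (μ : ℝ) ≤ 2 ^ 79 * l ^ 3 * x ^ 2 := by linarith
  -- t large
  have ht3 : (2 : ℝ) ^ 180 * l ≤ t := by
    have : 2 ^ 180 * l ≤ y / 2 ^ 14 := by
      rw [le_div_iff₀ (by positivity)]; linarith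
    linarith
  have ht4 : 3 ≤ t := by
    have : (3 : ℝ) ≤ t := by linarith
    exact_mod_cast this
  have hMr : ((t0 + 6 * L - 1 : ℕ) : ℝ) ≤ 10 * y := by
    have : ((t0 + 6 * L - 1 : ℕ) : ℝ) ≤ ((t0 + 6 * L : ℕ) : ℝ) := by
      exact_mod_cast Nat.sub_le _ _
    push_cast at this
    rw [← hle] at this
    linarith
  have hM0 : (0 : ℝ) ≤ ((t0 + 6 * L - 1 : ℕ) : ℝ) := Nat.cast_nonneg _
  refine ⟨h, t, t0, t0 + 6 * L - 1, B, 2 ^ 25 * L, c2, Dm, K, μ, km,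
    2 ^ 64 * L ^ 2 * n ^ 2, k0, ?_, ht4, ?_, ?_, ?_, ?_, ?_, ?_, ?_, ?_, ?_, ?_, ?_, ?_, ?_, ?_, ?_,
    ?_, ?_, ?_, ?_, ?_, ?_, ?_, ?_⟩
  · -- 4096 ≤ d
    have : (4096 : ℝ) ≤ d := by rw [ed]; linarith
    exact_mod_cast this
  · -- 2 ≤ B
    have h3 : 2 * l ≤ B * l := by linarith
    have : (2 : ℝ) ≤ B := le_of_mul_le_mul_right h3 l0
    exact_mod_cast this
  · have : (1 : ℝ) ≤ h := by linarith
    exact_mod_cast this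
  · have : (8 : ℝ) * h ≤ n := by
      rw [en]
      calc (8 : ℝ) * h ≤ 8 * (x * y / 2 ^ 26) := by gcongr
        _ ≤ (x * y) * 2 ^ 20 := by linarith
        _ ≤ (x * y) * x := by gcongr
        _ = x ^ 2 * y := by ring
    exact_mod_cast this
  · have : (8192 : ℝ) * (t * n) ≤ d ^ 2 := by
      rw [en, ed]
      calc (8192 : ℝ) * (t * (x ^ 2 * y)) ≤ 8192 * ((y / 2 ^ 13) * (x ^ 2 * y)) := by gcongr
        _ = (x * y) ^ 2 := by ring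
    exact_mod_cast this
  · have : (12 : ℝ) * L ≤ t := by rw [← hle]; linarith
    exact_mod_cast this
  · have : (8 : ℝ) * d ^ 2 ≤ n * t0 := by
      rw [en, ed]
      calc 8 * (x * y) ^ 2 = (x ^ 2 * y) * (8 * y) := by ring
        _ ≤ (x ^ 2 * y) * t0 := by gcongr
    exact_mod_cast this
  · omega
  · have := c10 x y l t h hx hl hy ht1' hh2
    rw [← en, ← ed, hle] at this
    exact_mod_cast this
  · have h3 : (0 : ℝ) < k0 := lt_of_lt_of_le (by positivity) hk1'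
    exact_mod_cast h3
  · have := c12 x y ((t0 + 6 * L - 1 : ℕ) : ℝ) h k0 hx y0 (Nat.cast_nonneg _) hk2 hM0 hMr hh1'
    rw [← ed] at this
    exact_mod_cast this
  · have := c13 x y l h hx hl hy hh1'
    rw [← en, ← ed, hle] at this
    exact_mod_cast this
  · have := c14 x y l h k0 km x0 y0 l0 hm2' hk1' hh1'
    rw [← en, ← ed, hle] at this
    exact_mod_cast this
  · have := c15 x y l c2 Dm hx hl hy hc2' hD1
    rw [← en, ← ed, hle] at this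
    exact_mod_cast this
  · have := c16 x y l K μ hx hl hy hK2' hμ1
    rw [← en, ← ed, hle] at this
    exact_mod_cast this
  · have h3 : (6 : ℝ) * L * B ≤ t := by
      rw [← hle]
      linarith
    exact_mod_cast h3
  · have := c18 y l ((t0 + 6 * L - 1 : ℕ) : ℝ) B y0 l0 hMr hB1'
    rw [hle] at this
    exact_mod_cast this
  · omega
  · have := c20 x y l B c2 x0 y0 (Nat.cast_nonneg _) hB1' hc1
    rw [← en] at this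
    exact_mod_cast this
  · have : (6 : ℝ) * L ≤ c2 := by
      rw [← hle]
      calc 6 * l ≤ 2 ^ 21 * l * 2 ^ 40 := by linarith
        _ ≤ 2 ^ 21 * l * x ^ 2 := by gcongr
        _ ≤ c2 := hc1
    exact_mod_cast this
  · have h5 : y / 2 ^ 15 ≤ (t : ℝ) - 2 := by linarith
    have := c22 x y l t B Dm x0 l0 y0 (Nat.cast_nonneg _) hB2' (Nat.cast_nonneg _) hD2' h5
    rw [← en, hle] at this
    have h6 : ((t - 2 : ℕ) : ℝ) = (t : ℝ) - 2 := by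
      rw [Nat.cast_sub (by omega)]; norm_num
    rw [← h6] at this
    exact_mod_cast this
  · have := c23 x y l K x0 y0 l0 hK1
    rw [← en, ← ed, hle] at this
    exact_mod_cast this
  · have := c24 x y l h km μ x0 hl y0 hy4 hμ2' hm1' (Nat.cast_nonneg _) hh1'
    rw [← en, ← ed, hle] at this
    exact_mod_cast this
  · have h3 : (km : ℝ) * l ≤ n * l := by
      rw [en]
      calc (km : ℝ) * l ≤ x ^ 2 * y / 2 ^ 80 := hm2'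
        _ ≤ x ^ 2 * y * 1 := by
            have : 0 ≤ x ^ 2 * y := by positivity
            linarith
        _ ≤ x ^ 2 * y * l := by gcongr
    have : (km : ℝ) ≤ n := le_of_mul_le_mul_right h3 l0
    exact_mod_cast this

end Pool.Agent.K1H35.SH.Num2
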