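import Mathlib

/-!
Interface of the project SH (shotgun assembly of dense random regular graphs, MP_0fd30f_pr).
All statements are about graphs on `Fin n`; `reg n d` is the finset of all `d`-regular graphs.
Everything here is Mathlib only.
-/

namespace Pool.Agent.K1H35.SH

open Finset

/-- open neighbourhood -/
noncomputable def nb {n : ℕ} (G : SimpleGraph (Fin n)) (v : Fin n) : Finset (Fin n) := by
  classical exact univ.filter (fun x => G.Adj v x)

/-- all `d`-regular graphs on `Fin n` -/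
noncomputable def reg (n d : ℕ) : Finset (SimpleGraph (Fin n)) := by
  classical exact univ.filter (fun G => ∀ v, (nb G v).card = d)

/-- number of `d`-regular graphs on `Fin n` with the property `P` -/
noncomputable def cnt (n d : ℕ) (P : SimpleGraph (Fin n) → Prop) : ℕ := by
  classical exact ((reg n d).filter P).card

/-- tuples of four vertices -/
abbrev Tup (n : ℕ) := Fin n × Fin n × Fin n × Fin n

/-- the four pairs changed by a switch -/
def changed {n : ℕ} (t : Tup n) : Set (Sym2 (Fin n)) :=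
  {s(t.1, t.2.1), s(t.2.2.1, t.2.2.2), s(t.1, t.2.2.1), s(t.2.1, t.2.2.2)}

/-- the switch at `t = (a,b,c,e)`: complement the four pairs `ab, ce, ac, be` -/
def sw {n : ℕ} (t : Tup n) (G : SimpleGraph (Fin n)) : SimpleGraph (Fin n) where
  Adj x y := x ≠ y ∧ ((G.Adj x y ∧ s(x, y) ∉ changed t) ∨ (¬ G.Adj x y ∧ s(x, y) ∈ changed t))
  symm := ⟨by
    intro x y h
    refine ⟨h.1.symm, ?_⟩
    rw [SimpleGraph.adj_comm, Sym2.eq_swap]
    exact h.2⟩
  loopless := ⟨fun x h => h.1 rfl⟩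

/-- `t = (a,b,c,e)` is switchable: `ab`, `ce` are edges, `ac`, `be` are non-edges with
`a ≠ c`, `b ≠ e` (all four vertices are then distinct). The switch removes `ab`, `ce` and adds
`ac`, `be`. -/
def Val {n : ℕ} (G : SimpleGraph (Fin n)) (t : Tup n) : Prop :=
  G.Adj t.1 t.2.1 ∧ G.Adj t.2.2.1 t.2.2.2 ∧ ¬ G.Adj t.1 t.2.2.1 ∧ t.1 ≠ t.2.2.1 ∧
    ¬ G.Adj t.2.1 t.2.2.2 ∧ t.2.1 ≠ t.2.2.2

/-- Piece SW: facts on switches. -/
def S_SW : Prop :=
  ∀ (n : ℕ) (G : SimpleGraph (Fin n)) (a b c e : Fin n), Val G (a, b, c, e) →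
    (∀ x y, (sw (a, b, c, e) G).Adj x y ↔
      ((s(x, y) = s(a, c) ∨ s(x, y) = s(b, e)) ∨
        (G.Adj x y ∧ s(x, y) ≠ s(a, b) ∧ s(x, y) ≠ s(c, e)))) ∧
    nb (sw (a, b, c, e) G) a = insert c ((nb G a).erase b) ∧
    nb (sw (a, b, c, e) G) b = insert e ((nb G b).erase a) ∧
    nb (sw (a, b, c, e) G) c = insert a ((nb G c).erase e) ∧
    nb (sw (a, b, c, e) G) e = insert b ((nb G e).erase c) ∧
    (∀ z, z ≠ a → z ≠ b → z ≠ c → z ≠ e → nb (sw (a, b, c, e) G) z = nb G z) ∧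
    (∀ d, G ∈ reg n d → sw (a, b, c, e) G ∈ reg n d)

/-- Piece DC: double counting with switches. -/
def S_DC : Prop :=
  ∀ (n d : ℕ) (P Q : SimpleGraph (Fin n) → Prop)
    (F B : SimpleGraph (Fin n) → Finset (Tup n)) (f g : ℕ),
    (∀ G ∈ reg n d, P G → ∀ t ∈ F G, sw t G ∈ reg n d ∧ Q (sw t G) ∧ t ∈ B (sw t G)) →
    (∀ G ∈ reg n d, P G → f ≤ (F G).card) →
    (∀ G ∈ reg n d, Q G → (B G).card ≤ g) →
    f * cnt n d P ≤ g * cnt n d Q

/-- Piece CH: the chain lemma. -/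
def S_CH : Prop :=
  ∀ (a b : ℕ → ℕ) (J N B : ℕ), (∀ j, a j ≤ N) → (∑ j ∈ range (J + 1), b j ≤ B) →
    (∀ j < J, 2 * a j ≤ a (j + 1) + b (j + 1)) →
    ∀ j ≤ J, 2 ^ (J - j) * a j ≤ N + 2 ^ (J - j) * B

/-- codegree -/
noncomputable def codeg {n : ℕ} (G : SimpleGraph (Fin n)) (u v : Fin n) : ℕ := by
  classical exact (nb G u ∩ nb G v).card

/-- all codegrees are less than `15 d / 16` -/
def Good {n : ℕ} (d : ℕ) (G : SimpleGraph (Fin n)) : Prop :=
  ∀ u v, u ≠ v → 16 * codeg G u v < 15 * d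

/-- backward tuples for the codegree: `(v, k, l, x)` with `k` a common neighbour of `u, v`,
`l` adjacent to none of `u, v`, and `x` adjacent to `l` and not to `k`. -/
noncomputable def RT {n : ℕ} (G : SimpleGraph (Fin n)) (u v : Fin n) : Finset (Tup n) := by
  classical exact univ.filter (fun t => t.1 = v ∧ G.Adj u t.2.1 ∧ G.Adj v t.2.1 ∧
    ¬ G.Adj u t.2.2.1 ∧ ¬ G.Adj v t.2.2.1 ∧ t.2.2.1 ≠ u ∧ t.2.2.1 ≠ v ∧
    G.Adj t.2.2.1 t.2.2.2 ∧ ¬ G.Adj t.2.1 t.2.2.2 ∧ t.2.1 ≠ t.2.2.2)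

/-- Piece R: lower bound for the number of backward tuples (Cauchy-Schwarz). -/
def S_R : Prop :=
  ∀ (n d t : ℕ) (G : SimpleGraph (Fin n)) (u v : Fin n), 2 * d ≤ n → 64 ≤ d →
    G ∈ reg n d → u ≠ v → codeg G u v = t + 1 → 7 * d ≤ 8 * t →
    3 * d ^ 3 ≤ 16 * (RT G u v).card

/-- Piece ONE: large codegrees are exponentially unlikely, one step. -/
def S_ONE : Prop :=
  ∀ (n d t : ℕ) (u v : Fin n), 2 * d ≤ n → 64 ≤ d → u ≠ v → 7 * d ≤ 8 * t →
    2 * cnt n d (fun G => codeg G u v = t + 1) ≤ cnt n d (fun G => codeg G u v = t)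

/-- Piece BAD: the number of bad graphs. -/
def S_BAD : Prop :=
  ∀ (n d : ℕ), 2 * d ≤ n → 64 ≤ d →
    cnt n d (fun G => ¬ Good d G) * 2 ^ (d / 16) ≤ n ^ 3 * (reg n d).card

/-- common neighbours of `u, v` which are not neighbours of `w` -/
noncomputable def TS {n : ℕ} (G : SimpleGraph (Fin n)) (u v w : Fin n) : Finset (Fin n) := by
  classical exact (nb G u ∩ nb G v) \ nb G w

/-- Piece TWO: one step of the chain for `(TS G u v w).card`. -/
def S_TWO : Prop :=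
  ∀ (n d j : ℕ) (u v w : Fin n), 2 * d ≤ n → 4096 ≤ d → u ≠ v → u ≠ w → v ≠ w →
    4096 * ((j + 1) * n) ≤ d ^ 2 →
    2 * cnt n d (fun G => Good d G ∧ (TS G u v w).card = j) ≤
      cnt n d (fun G => (TS G u v w).card = j + 1)

/-- number of disagreements of the two labelled induced subgraphs -/
noncomputable def dis {n a : ℕ} (α β : Fin a → Fin n) (G : SimpleGraph (Fin n)) : ℕ := by
  classical exact (univ.filter (fun p : Fin a × Fin a => p.1 < p.2 ∧
    ¬ (G.Adj (α p.1) (α p.2) ↔ G.Adj (β p.1) (β p.2)))).card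

/-- number of pairs which are non-edges in both labelled induced subgraphs -/
noncomputable def non {n a : ℕ} (α β : Fin a → Fin n) (G : SimpleGraph (Fin n)) : ℕ := by
  classical exact (univ.filter (fun p : Fin a × Fin a => p.1 < p.2 ∧
    ¬ G.Adj (α p.1) (α p.2) ∧ ¬ G.Adj (β p.1) (β p.2))).card

/-- `α, β` are injective with disjoint ranges -/
def DisjPair {n a : ℕ} (α β : Fin a → Fin n) : Prop :=
  Function.Injective α ∧ Function.Injective β ∧ ∀ i j, α i ≠ β j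

/-- all differences of neighbourhoods have at least `g` elements -/
def Gap {n : ℕ} (g : ℕ) (G : SimpleGraph (Fin n)) : Prop :=
  ∀ k l, k ≠ l → (g ≤ (TS G k k l).card)

/-- Piece THA: one step for the number of disagreements, adding an edge, any degree `D`. -/
def S_THA : Prop :=
  ∀ (n D g a q j : ℕ) (α β : Fin a → Fin n), DisjPair α β → 4 * a ≤ D → 2 * (1 + 2 * a) ≤ g →
    cnt n D (fun G => Gap g G ∧ dis α β G = j ∧ q ≤ non α β G) * (q * D * g) ≤
      4 * (j + 1) * n * D * cnt n D (fun G => dis α β G = j + 1)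

/-- Piece THB: one step for the number of disagreements, degree `d ≤ n/2`. -/
def S_THB : Prop :=
  ∀ (n d a q j : ℕ) (α β : Fin a → Fin n), DisjPair α β → 2 * d ≤ n → 64 ≤ d →
    2 * (1 + 2 * a) ≤ d / 16 → 6 * q ≤ a * (a - 1) → j ≤ q →
    16 * (j + 1) * n ≤ q * (d / 16) →
    2 * cnt n d (fun G => Good d G ∧ dis α β G = j) ≤ cnt n d (fun G => dis α β G = j + 1)

/-- closed neighbourhood -/
def ball {V : Type} (G : SimpleGraph V) (v : V) : Set V := {x | x = v ∨ G.Adj v x}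

/-- the rooted 1-neighbourhoods of `v` in `G` and `w` in `H` are isomorphic -/
def BallIso {V W : Type} (G : SimpleGraph V) (v : V) (H : SimpleGraph W) (w : W) : Prop :=
  ∃ f : ball G v ≃ ball H w, (f ⟨v, Or.inl rfl⟩ : W) = w ∧
    ∀ x y : ball G v, G.Adj x y ↔ H.Adj (f x) (f y)

/-- `G` is reconstructable from its 1-neighbourhoods -/
def Recon {V : Type} (G : SimpleGraph V) : Prop :=
  ∀ (W : Type) (H : SimpleGraph W) (φ : V ≃ W), (∀ v, BallIso G v H (φ v)) → Nonempty (G ≃g H)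

/-- the common neighbourhoods of `u, v` and of `u', v'` induce isomorphic graphs -/
def ComIso {V : Type} (G : SimpleGraph V) (u v u' v' : V) : Prop :=
  ∃ f : {x // G.Adj u x ∧ G.Adj v x} ≃ {x // G.Adj u' x ∧ G.Adj v' x},
    ∀ x y : {x // G.Adj u x ∧ G.Adj v x}, G.Adj (x : V) (y : V) ↔ G.Adj (f x : V) (f y : V)

/-- Piece REC: if different edges have non-isomorphic common neighbourhoods then the graph is
reconstructable. -/
def S_REC : Prop :=
  ∀ (n : ℕ) (G : SimpleGraph (Fin n)),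
    (∀ u v u' v', G.Adj u v → G.Adj u' v' → ComIso G u v u' v' → s(u, v) = s(u', v')) → Recon G

/-- Piece UNI: the deterministic conclusion. -/
def S_UNI : Prop :=
  ∀ (n a : ℕ) (G : SimpleGraph (Fin n)),
    (∀ u v w, u ≠ v → u ≠ w → v ≠ w → a ≤ (TS G u v w).card) →
    (∀ α β : Fin a → Fin n, DisjPair α β → dis α β G ≠ 0) →
    ∀ u v u' v', G.Adj u v → G.Adj u' v' → ComIso G u v u' v' → s(u, v) = s(u', v')

/-- Piece CNT: the union bound, in the form needed (everything multiplied out). `J` is the length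
of the chain for `dis`, `K + a` the length of the chain for `TS`. -/
def S_CNT : Prop :=
  ∀ (n d a q J K : ℕ), 2 * d ≤ n → 4096 ≤ d →
    2 * (1 + 2 * a) ≤ d / 16 → 6 * q ≤ a * (a - 1) → J ≤ q →
    16 * J * n ≤ q * (d / 16) → 4096 * ((K + a) * n) ≤ d ^ 2 →
    cnt n d (fun G => ¬ Recon G) * 2 ^ (d / 16 + J + K) ≤
      (2 ^ (J + K) * n ^ (2 * a + 8) + 2 ^ (d / 16 + J) * n ^ 4 +
        2 ^ (d / 16 + K) * n ^ (2 * a)) * (reg n d).card

/-- Piece NUM: choice of the parameters. -/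
def S_NUM : Prop :=
  ∃ C : ℝ, 0 < C ∧ ∀ n d : ℕ, 2 ≤ n → C * (n : ℝ) ^ 2 * Real.log n ≤ (d : ℝ) ^ 3 → 2 * d ≤ n →
    ∃ a q J K : ℕ, 4096 ≤ d ∧ 2 * (1 + 2 * a) ≤ d / 16 ∧ 6 * q ≤ a * (a - 1) ∧ J ≤ q ∧
      16 * J * n ≤ q * (d / 16) ∧ 4096 * ((K + a) * n) ≤ d ^ 2 ∧
      3 * n ^ (2 * a + 9) ≤ 2 ^ (d / 16) ∧ 3 * n ^ 5 ≤ 2 ^ K ∧ 3 * n ^ (2 * a + 1) ≤ 2 ^ J

/-- The final counting theorem (from CNT and NUM). -/
def S_MAIN : Prop :=
  ∃ C : ℝ, 0 < C ∧ ∀ n d : ℕ, C * (n : ℝ) ^ 2 * Real.log n ≤ (d : ℝ) ^ 3 → 2 * d ≤ n →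
    n * cnt n d (fun G => ¬ Recon G) ≤ (reg n d).card

/-- Piece EX: regular graphs exist. -/
def S_EX : Prop :=
  ∀ (n d : ℕ), 2 * d ≤ n → Even (n * d) → (reg n d).Nonempty

end Pool.Agent.K1H35.SH
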