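import Pool.Agent.K1H35.SH.Stm

/-!
Interface of the project SQ (MP_0fd30f_pr, FULL answer: sparse regime).
Parameters are natural numbers; `L` always satisfies `n ≤ 2 ^ L`.
-/

namespace Pool.Agent.K1H35.SH

open Finset

/-- number of ordered adjacent pairs inside `U` -/
noncomputable def E2 {n : ℕ} (G : SimpleGraph (Fin n)) (U : Finset (Fin n)) : ℕ := by
  classical exact (univ.filter (fun p : Fin n × Fin n => p.1 ∈ U ∧ p.2 ∈ U ∧ G.Adj p.1 p.2)).card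

/-! ### Switching estimates (sparse regime) -/

/-- Piece UPC: upper tail of the codegree, one step. -/
def S_UPC : Prop :=
  ∀ (n d t : ℕ) (u v : Fin n), 4 * d ≤ n → 64 ≤ d → u ≠ v → 8 * d ^ 2 ≤ n * t →
    2 * cnt n d (fun G => codeg G u v = t + 1) ≤ cnt n d (fun G => codeg G u v = t)

/-- Piece UPB: upper tail of all codegrees. -/
def S_UPB : Prop :=
  ∀ (n d t j : ℕ), 4 * d ≤ n → 64 ≤ d → 8 * d ^ 2 ≤ n * t →
    cnt n d (fun G => ∃ u v, u ≠ v ∧ t + j ≤ codeg G u v) * 2 ^ j ≤ n ^ 3 * (reg n d).card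

/-- Piece EUP: upper tail of the number of edges inside `U`, one step. -/
def S_EUP : Prop :=
  ∀ (n d e : ℕ) (U : Finset (Fin n)), 64 * d ≤ n → 64 ≤ d → 8 * U.card ≤ n →
    2 * d * U.card ^ 2 ≤ (e + 1) * n →
    2 * cnt n d (fun G => E2 G U = 2 * (e + 1)) ≤ cnt n d (fun G => E2 G U = 2 * e)

/-- small sets are sparse -/
def QD {n : ℕ} (h t : ℕ) (G : SimpleGraph (Fin n)) : Prop :=
  ∀ U : Finset (Fin n), U.card ≤ h → 16 * E2 G U ≤ t * U.card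

/-- Piece QDB: almost all graphs satisfy `QD`. -/
def S_QDB : Prop :=
  ∀ (n d h t L : ℕ), n ≤ 2 ^ L → 1 ≤ L → 64 * d ≤ n → 64 ≤ d → 8 * h ≤ n →
    64 * d * h + 256 * L * n ≤ t * n →
    cnt n d (fun G => ¬ QD h t G) * n ^ 2 ≤ (reg n d).card

/-- Piece LOD: lower tail of the number of edges inside `U`, one step. -/
def S_LOD : Prop :=
  ∀ (n d e : ℕ) (U : Finset (Fin n)), 64 * d ≤ n → 64 ≤ d → 64 ≤ U.card → 8 * U.card ≤ n →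
    9 * (e + 1) * n ≤ d * U.card ^ 2 →
    2 * cnt n d (fun G => E2 G U = 2 * e) ≤ cnt n d (fun G => E2 G U = 2 * (e + 1))

/-- sets of size between `d` and `n / 8` have the right density -/
def QL {n : ℕ} (d : ℕ) (G : SimpleGraph (Fin n)) : Prop :=
  ∀ U : Finset (Fin n), d ≤ U.card → 8 * U.card ≤ n →
    d * U.card ^ 2 ≤ 10 * n * E2 G U ∧ 2 * E2 G U ≤ U.card * (U.card - 1)

/-- Piece QLB: almost all graphs satisfy `QL`. -/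
def S_QLB : Prop :=
  ∀ (n d L : ℕ), n ≤ 2 ^ L → 1 ≤ L → 64 * d ≤ n → 64 ≤ d → 100 * L * n ≤ d ^ 2 →
    cnt n d (fun G => ¬ QL d G) * n ^ 2 ≤ (reg n d).card

/-- common neighbours outside a third neighbourhood -/
def QT {n : ℕ} (t : ℕ) (G : SimpleGraph (Fin n)) : Prop :=
  ∀ u v w, u ≠ v → u ≠ w → v ≠ w → t ≤ (TS G u v w).card

/-- Piece QTB (from TWO, BAD, CH). -/
def S_QTB : Prop :=
  ∀ (n d t L : ℕ), n ≤ 2 ^ L → 1 ≤ L → 64 * d ≤ n → 4096 ≤ d → 8192 * (t * n) ≤ d ^ 2 →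
    12 * L ≤ t → cnt n d (fun G => ¬ QT t G) * n ^ 2 ≤ (reg n d).card

/-! ### The local comparison lemma -/

/-- number of graphs with all edges in `Q` and degree sequence `D` -/
noncomputable def cntQ {n : ℕ} (Q : Fin n → Fin n → Prop) (D : Fin n → ℕ) : ℕ := by
  classical exact (univ.filter (fun G : SimpleGraph (Fin n) => (∀ x y, G.Adj x y → Q x y) ∧
    ∀ v, (nb G v).card = D v)).card

/-- Piece SM: smoothing and symmetry. -/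
def S_SM : Prop :=
  ∀ (n : ℕ) (Q : Fin n → Fin n → Prop) (i j : Fin n), (∀ x y, Q x y → Q y x) → i ≠ j →
    (∀ k, k ≠ i → k ≠ j → (Q i k ↔ Q j k)) →
    (∀ D : Fin n → ℕ, D j + 2 ≤ D i →
      cntQ Q D ≤ cntQ Q (Function.update (Function.update D i (D i - 1)) j (D j + 1))) ∧
    (∀ D : Fin n → ℕ, cntQ Q (D ∘ Equiv.swap i j) = cntQ Q D)

/-- Piece MAJ: iterated smoothing (abstract). -/
def S_MAJ : Prop :=
  ∀ (n : ℕ) (U : Finset (Fin n)) (C : (Fin n → ℕ) → ℕ),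
    (∀ i ∈ U, ∀ j ∈ U, i ≠ j → ∀ D : Fin n → ℕ, D j + 2 ≤ D i →
      C D ≤ C (Function.update (Function.update D i (D i - 1)) j (D j + 1))) →
    (∀ i ∈ U, ∀ j ∈ U, i ≠ j → ∀ D : Fin n → ℕ, C (D ∘ Equiv.swap i j) = C D) →
    ∀ D D' : Fin n → ℕ, (∀ v, v ∉ U → D v = D' v) → ∑ v ∈ U, D v = ∑ v ∈ U, D' v →
      (∀ i ∈ U, ∀ j ∈ U, D' i ≤ D' j + 1) → C D ≤ C D'

/-- Piece LC: local comparison of random regular graphs with uniform graphs. -/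
def S_LC : Prop :=
  ∀ (n d : ℕ) (U : Finset (Fin n)) (H : SimpleGraph (Fin n)),
    cnt n d (fun G => ∀ x ∈ U, ∀ y ∈ U, (G.Adj x y ↔ H.Adj x y)) *
      Nat.choose (U.card * (U.card - 1) / 2) (E2 H U / 2) ≤ U.card ^ U.card * (reg n d).card

/-- Piece CC: counting sets with constraints (abstract). -/
def S_CC : Prop :=
  ∀ (α : Type) [DecidableEq α] (Ω D : Finset α) (τ : α → α) (σ : α → Prop) (e r : ℕ),
    D ⊆ Ω → (∀ w ∈ D, τ w ≠ w) → 4 * r ≤ D.card → 2 * e ≤ Ω.card →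
    (({E ∈ Ω.powersetCard e | ∀ w ∈ D, (w ∈ E ↔ Xor (τ w ∈ E) (σ w))} : Set (Finset α)).ncard : ℝ)
      * (1 + (e : ℝ) / (Ω.card : ℝ)) ^ r ≤ (Ω.card + 1 : ℝ) * (Nat.choose Ω.card e : ℝ)

/-- non-diagonal pairs inside `U` -/
noncomputable def prs {n : ℕ} (U : Finset (Fin n)) : Finset (Sym2 (Fin n)) := by
  classical exact univ.filter (fun e => ¬ e.IsDiag ∧ ∀ x ∈ e, x ∈ U)

/-- the graph satisfies the constraints -/
def Sat {n : ℕ} (G : SimpleGraph (Fin n)) (D : Finset (Sym2 (Fin n)))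
    (τ : Sym2 (Fin n) → Sym2 (Fin n)) (σ : Sym2 (Fin n) → Prop) : Prop :=
  ∀ e ∈ D, (e ∈ G.edgeSet ↔ Xor (τ e ∈ G.edgeSet) (σ e))

/-- Piece LCC: constraints in random regular graphs (from LC and CC). -/
def S_LCC : Prop :=
  ∀ (n d : ℕ) (U : Finset (Fin n)) (D : Finset (Sym2 (Fin n))) (τ : Sym2 (Fin n) → Sym2 (Fin n))
    (σ : Sym2 (Fin n) → Prop) (r m : ℕ), 2 ≤ U.card → D ⊆ prs U →
    (∀ e ∈ D, τ e ≠ e ∧ ∀ x ∈ τ e, x ∈ U) → 4 * r ≤ D.card →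
    (cnt n d (fun G => m ≤ E2 G U ∧ 2 * E2 G U ≤ U.card * (U.card - 1) ∧ Sat G D τ σ) : ℝ) *
      (1 + (m : ℝ) / (U.card : ℝ) ^ 2) ^ r ≤
      (U.card : ℝ) ^ (U.card + 4) * ((reg n d).card : ℝ)

/-! ### The three union bounds -/

/-- a configuration with `k` heavy vertices -/
def Heavy {n : ℕ} (d h k : ℕ) (G : SimpleGraph (Fin n)) : Prop :=
  ∃ (Z : Finset (Fin n)) (f : Fin n → Fin n → Fin n) (Δ : Finset (Sym2 (Fin n))),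
    Z.card = k ∧ Δ.card ≤ 3 * d * k ∧
    (∀ z ∈ Z, Set.InjOn (f z) (nb G z : Set (Fin n)) ∧
      h < 2 * ({x ∈ nb G z | f z x ≠ x} : Set (Fin n)).ncard) ∧
    ∀ z ∈ Z, ∀ x ∈ nb G z, ∀ y ∈ nb G z, x ≠ y →
      (G.Adj x y ↔ Xor (G.Adj (f z x) (f z y)) (s(f z x, f z y) ∈ Δ))

/-- Piece QE (from LCC). -/
def S_QE : Prop :=
  ∀ (n d h k M k0 km L : ℕ), n ≤ 2 ^ L → 1 ≤ L → 64 * d ≤ n → 64 ≤ d → 1 ≤ k → k ≤ km → 1 ≤ k0 →
    4 * k0 * M ^ 2 ≤ h * d → 2 ^ 15 * L * n ≤ h * d → 2 ^ 15 * L * n * km ≤ k0 * h * d →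
    cnt n d (fun G => (∀ u v, u ≠ v → codeg G u v ≤ M) ∧ QL d G ∧ Heavy d h k G) * n ^ 3 ≤
      (reg n d).card

/-- a family of `s` partial maps compatible with `G` -/
def Conf {n s d : ℕ} (g : Fin s → Fin d → Fin n × Fin n) (G : SimpleGraph (Fin n)) : Prop :=
  (∀ i, Function.Injective (fun a => (g i a).1) ∧ Function.Injective (fun a => (g i a).2)) ∧
  ∀ i a b i' a' b', a ≠ b → a' ≠ b' → s((g i a).2, (g i b).2) = s((g i' a').2, (g i' b').2) →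
    (G.Adj (g i a).1 (g i b).1 ↔ G.Adj (g i' a').1 (g i' b').1)

/-- merged pairs -/
def Merged {n s d : ℕ} (g : Fin s → Fin d → Fin n × Fin n) : Set (Sym2 (Fin n)) :=
  {e | ∃ i a b i' a' b', a ≠ b ∧ a' ≠ b' ∧ e = s((g i a).1, (g i b).1) ∧
    s((g i a).2, (g i b).2) = s((g i' a').2, (g i' b').2) ∧ s((g i' a').1, (g i' b').1) ≠ e}

/-- few merged pairs -/
def QG {n : ℕ} (d s Dm : ℕ) (G : SimpleGraph (Fin n)) : Prop :=
  ∀ g : Fin s → Fin d → Fin n × Fin n, Conf g G → (Merged g).ncard ≤ Dm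

/-- Piece QGB (from LCC). -/
def S_QGB : Prop :=
  ∀ (n d s Dm L : ℕ), n ≤ 2 ^ L → 1 ≤ L → 64 * d ≤ n → 64 ≤ d →
    8 * L * n * (n + 2 * s * d + 8) ≤ Dm * d →
    cnt n d (fun G => ¬ QG d s Dm G) * n ^ 2 ≤ (reg n d).card

/-- `π, Δ` describe the symmetry `(x, z) ↦ (π x, π⁻¹ z)` with exceptions `Δ` -/
def Sym {n : ℕ} (G : SimpleGraph (Fin n)) (π : Equiv.Perm (Fin n)) (Δ : Finset (Fin n × Fin n)) :
    Prop :=
  ∀ x z, x ≠ z → (G.Adj x z ↔ Xor (G.Adj (π x) (π.symm z)) ((x, z) ∈ Δ))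

/-- approximate symmetries are almost trivial -/
def QP {n : ℕ} (K μ : ℕ) (G : SimpleGraph (Fin n)) : Prop :=
  ∀ (π : Equiv.Perm (Fin n)) (Δ : Finset (Fin n × Fin n)), Δ.card ≤ K → Sym G π Δ →
    ({x | π x ≠ x} : Set (Fin n)).ncard ≤ μ

/-- Piece QPB (from LCC). -/
def S_QPB : Prop :=
  ∀ (n d K μ L : ℕ), n ≤ 2 ^ L → 1 ≤ L → 64 * d ≤ n → 64 ≤ d →
    32 * L * (2 * n + 2 * K + 8) ≤ μ * d →
    cnt n d (fun G => ¬ QP K μ G) * n ^ 2 ≤ (reg n d).card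

/-! ### Deterministic part -/

/-- `H` has the same 1-neighbourhoods as `G`, through the maps `f v` -/
def Twin {n : ℕ} (G H : SimpleGraph (Fin n)) (f : Fin n → Fin n → Fin n) : Prop :=
  ∀ v, Set.InjOn (f v) (nb G v : Set (Fin n)) ∧ f v '' (nb G v : Set (Fin n)) = (nb H v : Set (Fin n)) ∧
    ∀ x ∈ nb G v, ∀ y ∈ nb G v, (G.Adj x y ↔ H.Adj (f v x) (f v y))

/-- defects of `f` at `v` -/
noncomputable def Sd {n : ℕ} (G : SimpleGraph (Fin n)) (f : Fin n → Fin n → Fin n) (v : Fin n) :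
    Finset (Fin n) := by
  classical exact (nb G v).filter (fun x => f v x ≠ x)

/-- heavy vertices -/
noncomputable def Hv {n : ℕ} (h : ℕ) (G : SimpleGraph (Fin n)) (f : Fin n → Fin n → Fin n) :
    Finset (Fin n) := by
  classical exact univ.filter (fun v => h < 2 * (Sd G f v).card)

/-- Piece CTR: the contraction. -/
def S_CTR : Prop :=
  ∀ (n d h t : ℕ) (G H : SimpleGraph (Fin n)) (f : Fin n → Fin n → Fin n), 1 ≤ t →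
    G ∈ reg n d → QT t G → QD h t G → Twin G H f →
    ∑ v, (Sd G f v).card ≤ 3 * d * (Hv h G f).card

/-- Piece HV: conclusion from the contraction. -/
def S_HV : Prop :=
  ∀ (n d h : ℕ) (G H : SimpleGraph (Fin n)) (f : Fin n → Fin n → Fin n),
    G ∈ reg n d → Twin G H f → ∑ v, (Sd G f v).card ≤ 3 * d * (Hv h G f).card →
    ((Hv h G f).card = 0 → H = G) ∧ Heavy d h (Hv h G f).card G

/-- Piece NI: not nice elements (abstract). -/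
def S_NI : Prop :=
  ∀ (α ι : Type) [DecidableEq α] (P : Finset α) (I : Finset ι) (dom : ι → Finset α)
    (F : ι → α → α),
    (∀ i ∈ I, dom i ⊆ P) → (∀ i ∈ I, ∀ e ∈ dom i, F i e ∈ P) →
    (∀ e ∈ P, ∃ i ∈ I, e ∈ dom i) →
    ({e | e ∈ P ∧ ¬ ∀ i ∈ I, ∀ j ∈ I, e ∈ dom i → e ∈ dom j → F i e = F j e} : Set α).ncard ≤
      2 * ({e | e ∈ P ∧ ∃ i ∈ I, ∃ j ∈ I, ∃ e' ∈ dom j, e ∈ dom i ∧ e' ≠ e ∧ F i e = F j e'} :
        Set α).ncard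

/-- number of bad triples through `z, z'` -/
noncomputable def bad {n : ℕ} (G : SimpleGraph (Fin n)) (f : Fin n → Fin n → Fin n)
    (z z' : Fin n) : ℕ := by
  classical exact ((nb G z ∩ nb G z').filter (fun x => f z x ≠ f z' x)).card

/-- Piece BTR: bad triples inside `Z` (from NI). -/
def S_BTR : Prop :=
  ∀ (n d t c s Dm : ℕ) (G H : SimpleGraph (Fin n)) (f : Fin n → Fin n → Fin n)
    (Z : Finset (Fin n)), 2 ≤ t → G ∈ reg n d → Twin G H f → QG d s Dm G → Z.card ≤ s →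
    (∀ x y, x ≠ y → t ≤ codeg G x y) →
    (∀ x y, x ≠ y → 1 ≤ ({z ∈ Z | G.Adj z x ∧ G.Adj z y} : Set (Fin n)).ncard ∧
      ({z ∈ Z | G.Adj z x ∧ G.Adj z y} : Set (Fin n)).ncard ≤ c) →
    (t - 2) * ∑ z ∈ Z, ∑ z' ∈ Z, bad G f z z' ≤ 4 * c ^ 2 * Dm

/-- Piece BLK: blocks (abstract, probabilistic method). -/
def S_BLK : Prop :=
  ∀ (n B L t M c c2 : ℕ) (T : Fin n → Fin n → Finset (Fin n)), n ≤ 2 ^ L → 1 ≤ L → 2 ≤ B →
    (∀ x y, x ≠ y → t ≤ (T x y).card ∧ (T x y).card ≤ M) → 6 * L * B ≤ t → 6 * M ≤ c * B →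
    6 * L ≤ c → 6 * n ≤ c2 * B → 6 * L ≤ c2 →
    ∃ χ : Fin n → Fin B, (∀ x y, x ≠ y → ∀ b, 1 ≤ ({v ∈ T x y | χ v = b} : Set (Fin n)).ncard ∧
      ({v ∈ T x y | χ v = b} : Set (Fin n)).ncard ≤ c) ∧
      ∀ b, ({v | χ v = b} : Set (Fin n)).ncard ≤ c2

/-- Piece AGG: all bad triples (from BTR and BLK). -/
def S_AGG : Prop :=
  ∀ (n d L t M B c c2 Dm : ℕ) (G H : SimpleGraph (Fin n)) (f : Fin n → Fin n → Fin n),
    n ≤ 2 ^ L → 1 ≤ L → 2 ≤ t → 2 ≤ B → G ∈ reg n d → Twin G H f → QG d (2 * c2) Dm G →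
    (∀ x y, x ≠ y → t ≤ codeg G x y ∧ codeg G x y ≤ M) → 6 * L * B ≤ t → 6 * M ≤ c * B →
    6 * L ≤ c → 6 * n ≤ c2 * B → 6 * L ≤ c2 →
    (t - 2) * ∑ z, ∑ z', bad G f z z' ≤ 16 * B ^ 2 * c ^ 2 * Dm

/-- Piece PSI: extraction of the permutation. -/
def S_PSI : Prop :=
  ∀ (n d b : ℕ) (G H : SimpleGraph (Fin n)) (f : Fin n → Fin n → Fin n), 1 ≤ d →
    G ∈ reg n d → Twin G H f → ∑ z, ∑ z', bad G f z z' ≤ b →
    ∃ (π : Equiv.Perm (Fin n)) (Δ : Finset (Fin n × Fin n)), d * Δ.card ≤ 36 * b ∧ Sym G π Δ ∧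
      d * ({p : Fin n × Fin n | G.Adj p.1 p.2 ∧ f p.2 p.1 ≠ π p.1} : Set _).ncard ≤ 9 * b

/-- Piece RTW: rigidity implies reconstructability. -/
def S_RTW : Prop :=
  ∀ (n : ℕ) (G : SimpleGraph (Fin n)),
    (∀ (H : SimpleGraph (Fin n)) (f : Fin n → Fin n → Fin n), Twin G H f → H = G) → Recon G

/-- Piece RIG: deterministic assembly (from CTR, HV, AGG, PSI). -/
def S_RIG : Prop :=
  ∀ (n d h L t M B c c2 Dm K μ km b : ℕ) (G : SimpleGraph (Fin n)),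
    n ≤ 2 ^ L → 1 ≤ L → 3 ≤ t → 2 ≤ B → 1 ≤ d → 1 ≤ h → G ∈ reg n d → QT t G →
    (∀ u v, u ≠ v → codeg G u v ≤ M) → QD h t G → QG d (2 * c2) Dm G → QP K μ G →
    (∀ k, 1 ≤ k → k ≤ km → ¬ Heavy d h k G) → 3 ≤ n →
    6 * L * B ≤ t → 6 * M ≤ c * B → 6 * L ≤ c → 6 * n ≤ c2 * B → 6 * L ≤ c2 →
    16 * B ^ 2 * c ^ 2 * Dm ≤ (t - 2) * b → 36 * b ≤ d * K → 2 * (9 * b + μ * d ^ 2) ≤ km * h * d →
    ∀ (H : SimpleGraph (Fin n)) (f : Fin n → Fin n → Fin n), Twin G H f → H = G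

/-- Piece NUM2: choice of the parameters. -/
def S_NUM2 : Prop :=
  ∀ (n d L : ℕ), n ≤ 2 ^ L → 2 ^ (L - 1) ≤ n → 1 ≤ L → 2 ^ 200 * L ^ 4 * n ≤ d ^ 2 →
    2 ^ 20 * d ≤ n →
    ∃ h t t0 M B c c2 Dm K μ km b k0 : ℕ, 4096 ≤ d ∧ 3 ≤ t ∧ 2 ≤ B ∧ 1 ≤ h ∧ 8 * h ≤ n ∧
      8192 * (t * n) ≤ d ^ 2 ∧ 12 * L ≤ t ∧
      8 * d ^ 2 ≤ n * t0 ∧ M + 1 = t0 + 6 * L ∧
      64 * d * h + 256 * L * n ≤ t * n ∧
      1 ≤ k0 ∧ 4 * k0 * M ^ 2 ≤ h * d ∧ 2 ^ 15 * L * n ≤ h * d ∧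
      2 ^ 15 * L * n * km ≤ k0 * h * d ∧
      8 * L * n * (n + 2 * (2 * c2) * d + 8) ≤ Dm * d ∧
      32 * L * (2 * n + 2 * K + 8) ≤ μ * d ∧
      6 * L * B ≤ t ∧ 6 * M ≤ c * B ∧ 6 * L ≤ c ∧ 6 * n ≤ c2 * B ∧ 6 * L ≤ c2 ∧
      16 * B ^ 2 * c ^ 2 * Dm ≤ (t - 2) * b ∧ 36 * b ≤ d * K ∧
      2 * (9 * b + μ * d ^ 2) ≤ km * h * d ∧ km ≤ n

/-- The sparse theorem (from everything above). -/
def S_SPARSE : Prop :=
  ∀ (n d L : ℕ), n ≤ 2 ^ L → 2 ^ (L - 1) ≤ n → 1 ≤ L → 2 ^ 200 * L ^ 4 * n ≤ d ^ 2 →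
    2 ^ 20 * d ≤ n → n * cnt n d (fun G => ¬ Recon G) ≤ (reg n d).card

/-- The full theorem (from MAIN and SPARSE). -/
def S_FULL : Prop :=
  ∃ C : ℝ, 0 < C ∧ ∀ n d : ℕ, C ≤ (n : ℝ) → C * (n : ℝ) * (Real.log n) ^ 4 ≤ (d : ℝ) ^ 2 →
    2 * d ≤ n → n * cnt n d (fun G => ¬ Recon G) ≤ (reg n d).card

end Pool.Agent.K1H35.SH
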