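import Pool.Agent.K1H35.SH.All3
import Pool.Agent.K1H35.SH.Num2

namespace Pool.Agent.K1H35.SH

theorem r_NUM2 : S_NUM2 := Pool.Agent.K1H35.SH.Num2.t_NUM2
theorem r_SPARSE : S_SPARSE := r_SPARSE' r_NUM2
theorem r_FULL : S_FULL := t_FULL r_MAIN r_SPARSE

end Pool.Agent.K1H35.SH
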